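import Pool.Agent.Run7.h778.LS.Sparse
import Pool.Agent.W111.LAR.Tut

set_option autoImplicit false

/-!
Sets with small boundary in locally sparse regular graphs, and spanning subgraphs with components of
two or three vertices.
-/

namespace Pool.Agent.Run7.H778.LS

open Finset SimpleGraph H931R3.LA Pool.Agent.W111.LAR Pool.Agent.Run7.H778.RL

section

variable {V : Type} [Fintype V] [DecidableEq V] (G : SimpleGraph V) [DecidableRel G.Adj]

/-- The ball of radius `R`. -/
def ball (b : V) : ℕ → Finset V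
  | 0 => {b}
  | R + 1 => ball b R ∪ (ball b R).biUnion (fun v => univ.filter (fun w => G.Adj v w))

theorem ball_card (r : ℕ) (hreg : ∀ v, (G.neighborSet v).ncard = r) (b : V) (R : ℕ) :
    (ball G b R).card ≤ (r + 1) ^ R := by
  induction R with
  | zero => simp [ball]
  | succ R ih =>
    have h1 : ((ball G b R).biUnion (fun v => univ.filter (fun w => G.Adj v w))).card ≤
        (ball G b R).card * r := by
      refine card_biUnion_le.trans ?_
      rw [← smul_eq_mul, ← sum_const]
      refine sum_le_sum fun v _ => ?_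
      rw [← hreg v, Set.ncard_eq_toFinset_card']
      refine le_of_eq ?_
      congr 1
      ext w
      simp
    have h2 := card_union_le (ball G b R) ((ball G b R).biUnion
      (fun v => univ.filter (fun w => G.Adj v w)))
    have h3 : (r + 1) ^ (R + 1) = (r + 1) ^ R * r + (r + 1) ^ R := by ring
    have h4 : (ball G b R).card * r ≤ (r + 1) ^ R * r := Nat.mul_le_mul_right _ ih
    show (ball G b R ∪ (ball G b R).biUnion (fun v => univ.filter (fun w => G.Adj v w))).card ≤ _
    omega

theorem ball_succ (b v w : V) (R : ℕ) (hv : v ∈ ball G b R) (h : G.Adj v w) :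
    w ∈ ball G b (R + 1) :=
  mem_union_right _ (mem_biUnion.2 ⟨v, hv, mem_filter.2 ⟨mem_univ _, h⟩⟩)

theorem ball_le (b : V) {R R' : ℕ} (h : R ≤ R') : ball G b R ⊆ ball G b R' := by
  induction h with
  | refl => exact fun x hx => hx
  | step _ ih => exact ih.trans subset_union_left

/-- A vertex with a short walk out of `K` is near a boundary vertex. -/
theorem near_boundary (K : Finset V) {x w : V} (p : G.Walk x w) (hw : w ∉ K) (hx : x ∈ K) :
    ∃ b ∈ K, (∃ u, u ∉ K ∧ G.Adj b u) ∧ x ∈ ball G b p.length := by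
  induction p with
  | nil => exact absurd hx hw
  | @cons x x1 w h p ih =>
    by_cases h1 : x1 ∈ K
    · obtain ⟨b, hb, hb2, hb3⟩ := ih hw h1
      exact ⟨b, hb, hb2, by
        rw [Walk.length_cons]
        exact ball_succ G b x1 x p.length hb3 h.symm⟩
    · refine ⟨x, hx, ⟨x1, h1, h⟩, ball_le G x (Nat.zero_le _) ?_⟩
      exact mem_singleton_self x

theorem wt_le (K : Finset V) : wt G K K ≤ 2 * (eIn G K).ncard := by
  classical
  set D := (K ×ˢ K).filter (fun x => G.Adj x.1 x.2) with hD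
  have hwD : wt G K K = D.card := by
    rw [wt, hD, card_filter, sum_product]
  rw [hwD]
  have h1 : D.card ≤ 2 * (D.image (fun x => s(x.1, x.2))).card := by
    refine card_le_mul_card_image D 2 ?_
    intro e _
    induction e using Sym2.ind with
    | _ a b =>
      have h2 : D.filter (fun x => s(x.1, x.2) = s(a, b)) ⊆ {(a, b), (b, a)} := by
        rintro ⟨u, v⟩ hx
        rcases Sym2.eq_iff.1 (mem_filter.1 hx).2 with ⟨h3, h4⟩ | ⟨h3, h4⟩
        · rw [mem_insert]
          left
          exact Prod.ext h3 h4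
        · rw [mem_insert, mem_singleton]
          right
          exact Prod.ext h3 h4
      exact (card_le_card h2).trans card_le_two
  have h2 : ((D.image (fun x => s(x.1, x.2)) : Finset (Sym2 V)) : Set (Sym2 V)) ⊆ eIn G K := by
    intro e he
    obtain ⟨⟨u, v⟩, hx, rfl⟩ := mem_image.1 (mem_coe.1 he)
    obtain ⟨h3, h4⟩ := mem_filter.1 hx
    exact mem_eIn.2 ⟨h4, (mem_product.1 h3).1, (mem_product.1 h3).2⟩
  have h3 := Set.ncard_le_ncard h2 (Set.toFinite _)
  rw [Set.ncard_coe_finset] at h3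
  omega

theorem deep' (r R m : ℕ) (hr : 3 ≤ r) (hreg : ∀ v, (G.neighborSet v).ncard = r)
    (hm : r * (r + 1) ^ R ≤ m) (hS : Sparse G m) (K : Finset V)
    (hK : K.Nonempty) (hcut : cut G K < r) :
    ∃ y ∈ K, ∀ (w : V) (p : G.Walk y w), p.length ≤ R → w ∈ K := by
  classical
  by_contra hcon
  push Not at hcon
  set Q := K.filter (fun b => ∃ u, u ∉ K ∧ G.Adj b u) with hQ
  have hsub : K ⊆ Q.biUnion (fun b => ball G b R) := by
    intro x hx
    obtain ⟨w, p, hp, hw⟩ := hcon x hx
    obtain ⟨b, hb, hb2, hb3⟩ := near_boundary G K p hw hx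
    exact mem_biUnion.2 ⟨b, mem_filter.2 ⟨hb, hb2⟩, ball_le G b hp hb3⟩
  have hQcut : Q.card ≤ cut G K := by
    have h1 : Q.card = ∑ u ∈ Q, 1 := by simp
    have h2 : ∑ u ∈ Q, 1 ≤ ∑ u ∈ Q, ∑ v ∈ Kᶜ, (if G.Adj u v then 1 else 0) := by
      refine sum_le_sum fun u hu => ?_
      obtain ⟨huK, v, hv, huv⟩ := mem_filter.1 hu
      have h3 : v ∈ Kᶜ := mem_compl.2 hv
      refine le_trans ?_ (single_le_sum (f := fun v => if G.Adj u v then 1 else 0)
        (fun v _ => Nat.zero_le _) h3)
      simp [huv]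
    have h3 : ∑ u ∈ Q, ∑ v ∈ Kᶜ, (if G.Adj u v then 1 else 0) ≤ cut G K :=
      sum_le_sum_of_subset (filter_subset _ _)
    omega
  have hKm : K.card ≤ m := by
    refine (card_le_card hsub).trans (card_biUnion_le.trans ?_)
    refine le_trans (sum_le_sum (g := fun _ => (r + 1) ^ R)
      fun b _ => ball_card G r hreg b R) ?_
    rw [sum_const, smul_eq_mul]
    exact (Nat.mul_le_mul_right _ (by omega)).trans hm
  have hdeg : wt G K K + cut G K = r * K.card := by
    have h1 : wt G K K + cut G K = wt G K (K ∪ Kᶜ) :=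
      (wt_union_right G K disjoint_compl_right).symm
    rw [h1, union_compl, wt]
    have h2 : ∀ u ∈ K, (∑ v, if G.Adj u v then 1 else 0) = r := by
      intro u _
      rw [← card_filter, ← hreg u, Set.ncard_eq_toFinset_card']
      congr 1
      ext v
      simp
    rw [sum_congr rfl h2, sum_const, smul_eq_mul, mul_comm]
  have h1 := wt_le G K
  have h2 := hS K hKm
  have hDle : wt G K K ≤ K.card * K.card - K.card := by
    have hwD : wt G K K = ((K ×ˢ K).filter (fun x => G.Adj x.1 x.2)).card := by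
      rw [wt, card_filter, sum_product]
    rw [hwD, ← offDiag_card]
    refine card_le_card ?_
    rintro ⟨u, v⟩ hx
    obtain ⟨h3, h4⟩ := mem_filter.1 hx
    obtain ⟨hu, hv⟩ := mem_product.1 h3
    exact mem_offDiag.2 ⟨hu, hv, h4.ne⟩
  have hKpos : 1 ≤ K.card := card_pos.2 hK
  generalize K.card = n at *
  have h3 : r * n ≤ 2 * n + (r - 1) := by omega
  have h4 : n ≤ 2 := by
    by_contra hn
    push Not at hn
    obtain ⟨s, rfl⟩ : ∃ s, r = s + 3 := ⟨r - 3, by omega⟩
    have : (s + 3) * n = s * n + 3 * n := by ring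
    have h5 : s * 3 ≤ s * n := Nat.mul_le_mul_left _ hn
    omega
  interval_cases n <;> omega

end

theorem exists_sep' {V : Type} [Finite V] (G : SimpleGraph V) (r R m : ℕ) (hr : 3 ≤ r)
    (hR : 1 ≤ R) (hreg : ∀ v, (G.neighborSet v).ncard = r)
    (hm : r * (r + 1) ^ R ≤ m) (hS : Sparse G m) :
    ∃ (P : SimpleGraph V) (Y : Set V), P ≤ G ∧ (∀ v, 1 ≤ (P.neighborSet v).ncard) ∧
      (∀ v, v ∉ Y → (P.neighborSet v).ncard ≤ 1) ∧ (∀ v, (P.neighborSet v).ncard ≤ 2) ∧
      ∀ a ∈ Y, ∀ b ∈ Y, a ≠ b → ∀ p : G.Walk a b, 2 * R + 1 ≤ p.length := by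
  classical
  have := Fintype.ofFinite V
  let T := {K : Finset V // Mini G r K}
  have hdeep : ∀ t : T, ∃ y ∈ t.1, ∀ (w : V) (p : G.Walk y w), p.length ≤ R → w ∈ t.1 :=
    fun t => deep' G r R m hr hreg hm hS t.1 t.2.1 t.2.2.1
  choose y hy1 hy2 using hdeep
  have hsep : ∀ t t' : T, t ≠ t' → ∀ p : G.Walk (y t) (y t'), 2 * R + 1 ≤ p.length := by
    intro t t' hne p
    by_contra hlt
    push Not at hlt
    have h1 : p.getVert R ∈ t.1 := by
      refine hy2 t _ (p.take R) ?_
      rw [Walk.take_length]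
      exact min_le_left _ _
    have h2 : p.getVert R ∈ t'.1 := by
      refine hy2 t' _ (p.drop R).reverse ?_
      rw [Walk.length_reverse, Walk.drop_length]
      omega
    have h3 := mini_disj G t.2 t'.2 (fun h => hne (Subtype.ext h))
    exact Finset.disjoint_left.1 h3 h1 h2
  have hinj : Function.Injective y := by
    intro t t' h
    by_contra hne
    have := hsep t t' hne ((Walk.nil : G.Walk (y t) (y t)).copy rfl h)
    rw [Walk.length_copy, Walk.length_nil] at this
    omega
  have hnadj : ∀ t t', ¬ G.Adj (y t) (y t') := by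
    intro t t' h
    have hne : t ≠ t' := by
      rintro rfl
      exact G.irrefl h
    have := hsep t t' hne h.toWalk
    have h1 : h.toWalk.length = 1 := by simp [SimpleGraph.Adj.toWalk]
    omega
  let p : ℕ := (Nat.card V + Nat.card T) % 2
  have hev : Even (Nat.card (V ⊕ (T ⊕ Fin p))) := by
    rw [Nat.card_sum, Nat.card_sum, Nat.card_fin, Nat.even_iff]
    omega
  obtain ⟨M, hM⟩ := twin_pm G y p r (by omega) hreg hev (by
    intro X hX hc
    obtain ⟨K, hKX, hK⟩ := exists_mini G hX hc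
    refine ⟨⟨K, hK⟩, hKX (hy1 _), ?_⟩
    have h1 : (G.neighborSet (y ⟨K, hK⟩)).Nonempty := by
      rw [← Set.ncard_pos (Set.toFinite _), hreg]
      omega
    obtain ⟨v, hv⟩ := h1
    have hv' : G.Adj (y ⟨K, hK⟩) v := hv
    refine ⟨v, hKX (hy2 ⟨K, hK⟩ v hv'.toWalk ?_), hv'⟩
    simp only [SimpleGraph.Adj.toWalk, Walk.length_cons, Walk.length_nil]
    omega)
  obtain ⟨P, hP1, hP2, hP3, hP4⟩ := exists_P G y p M hM hinj hnadj
  refine ⟨P, Set.range y, hP1, hP2, hP3, hP4, ?_⟩
  rintro _ ⟨t, rfl⟩ _ ⟨t', rfl⟩ hne q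
  exact hsep t t' (fun h => hne (by rw [h])) q

end Pool.Agent.Run7.H778.LS
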