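import Pool.Agent.Run7.h778.LS.Sel

set_option autoImplicit false

/-!
The linear arboricity conjecture for locally sparse regular graphs.
-/

namespace Pool.Agent.Run7.H778.LS

open Finset SimpleGraph H931R3.LA Pool.Agent.W111.LAR Pool.Agent.Run7.H778.RL

theorem decomp_disj {V : Type} [Finite V] (G : SimpleGraph V) (k : ℕ)
    (hdeg : ∀ v, (G.neighborSet v).ncard ≤ 2 * k) :
    ∃ H : Fin k → SimpleGraph V, (∀ i v, ((H i).neighborSet v).ncard ≤ 2) ∧
      (⨆ i, H i) = G ∧ (∀ i, H i ≤ G) ∧
      ∀ i j u v, (H i).Adj u v → (H j).Adj u v → i = j := by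
  classical
  obtain ⟨H0, h1, h2⟩ := decomp G k hdeg
  let H : Fin k → SimpleGraph V := fun i =>
    { Adj := fun u v => (H0 i).Adj u v ∧ ∀ j < i, ¬ (H0 j).Adj u v
      symm.symm := fun u v h => ⟨h.1.symm, fun j hj h' => h.2 j hj h'.symm⟩
      loopless.irrefl := fun u h => h.1.ne rfl }
  have hle : ∀ i, H i ≤ H0 i := fun i u v h => h.1
  refine ⟨H, fun i v => ?_, ?_, fun i => ?_, ?_⟩
  · exact (Set.ncard_le_ncard (fun w hw => hle i hw) (Set.toFinite _)).trans (h1 i v)
  · rw [← h2]
    ext u v
    simp only [iSup_adj]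
    constructor
    · rintro ⟨i, hi⟩
      exact ⟨i, hi.1⟩
    · rintro ⟨i, hi⟩
      obtain ⟨j, hj, hmin⟩ := exists_min_image (univ.filter (fun j => (H0 j).Adj u v)) id
        ⟨i, mem_filter.2 ⟨mem_univ _, hi⟩⟩
      refine ⟨j, (mem_filter.1 hj).2, fun l hl hadj => ?_⟩
      exact absurd (hmin l (mem_filter.2 ⟨mem_univ _, hadj⟩)) (not_le.2 hl)
  · exact (hle i).trans ((le_iSup H0 i).trans h2.le)
  · intro i j u v hi hj
    rcases lt_trichotomy i j with h | h | h
    · exact absurd hi.1 (hj.2 i h)
    · exact h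
    · exact absurd hj.1 (hi.2 j h)

theorem pow_bound (r : ℕ) (hr : 0 < r) : 32 * r + 90 ≤ (r + 1) ^ (8 * r + 31) := by
  have h1 : 2 ^ (8 * r + 31) ≤ (r + 1) ^ (8 * r + 31) := Nat.pow_le_pow_left (by omega) _
  have h2 : 8 * r < 2 ^ (8 * r) := Nat.lt_two_pow_self
  have h3 : 2 ^ (8 * r + 31) = 2 ^ (8 * r) * 2147483648 := by
    rw [pow_add]
    norm_num
  omega

/-- Locally sparse graphs of maximum degree at most `2 k`. -/
theorem cov_even {V : Type} [Finite V] (G : SimpleGraph V) (k : ℕ)
    (hdeg : ∀ v, (G.neighborSet v).ncard ≤ 2 * k) (hS : Sparse G (64 * k + 90)) :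
    Cov G (k + 1) := by
  classical
  obtain ⟨H, h1, h2, h3, h4⟩ := decomp_disj G k hdeg
  have key := cov_LS G H ⊥ ∅ h3 bot_le h4 (fun i u v h => absurd h (by simp)) h1
    (fun v _ => by simp [SimpleGraph.neighborSet])
    (fun v => by simp [SimpleGraph.neighborSet]) (fun a ha => absurd ha (Set.notMem_empty a))
    (32 * k + 28) _ (by rw [Fintype.card_fin]) (by omega) hS
    (fun a ha => absurd ha (Set.notMem_empty a))
  rw [bot_sup_eq, h2, Fintype.card_fin] at key
  exact key

/-- **The linear arboricity conjecture for locally sparse regular graphs.** -/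
theorem la_of_sparse {V : Type} [Finite V] [Nonempty V] (G : SimpleGraph V) (r : ℕ) (hr : 0 < r)
    (hreg : ∀ v, (G.neighborSet v).ncard = r)
    (hS : Sparse G (if Even r then 32 * r + 90 else (r + 1) ^ (8 * r + 31))) :
    la G = (r + 2) / 2 := by
  classical
  refine la_eq_of_cov hr hreg ?_
  have hpb := pow_bound r hr
  rcases Nat.even_or_odd r with he | ho
  · rw [if_pos he] at hS
    obtain ⟨k, hk⟩ := he
    have h5 : (r + 2) / 2 = k + 1 := by omega
    rw [h5]
    refine cov_even G k (fun v => by rw [hreg v]; omega) ?_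
    have h6 : 64 * k + 90 = 32 * r + 90 := by omega
    rw [h6]
    exact hS
  · rw [if_neg (Nat.not_even_iff_odd.2 ho)] at hS
    obtain ⟨k, hk⟩ := ho
    have h5 : (r + 2) / 2 = k + 1 := by omega
    rw [h5]
    rcases Nat.eq_zero_or_pos k with hk0 | hk0
    · subst hk0
      have key := cov_LS G (fun i : Fin 0 => (⊥ : SimpleGraph V)) G ∅ (fun i => i.elim0) le_rfl
        (fun i => i.elim0) (fun i => i.elim0) (fun i => i.elim0)
        (fun v _ => by rw [hreg v]; omega) (fun v => by rw [hreg v]; omega)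
        (fun a ha => absurd ha (Set.notMem_empty a))
        28 _ (by simp) (by omega) hS
        (fun a ha => absurd ha (Set.notMem_empty a))
      simpa using key
    · obtain ⟨P, Y, hPG, hPpos, hP1, hP2, hsep⟩ := exists_sep' G r (8 * r + 30)
        ((r + 1) ^ (8 * r + 31)) (by omega) (by omega) hreg (by
          have h6 : (r + 1) ^ (8 * r + 31) = (r + 1) ^ (8 * r + 30) * (r + 1) := pow_succ _ _
          rw [h6, mul_comm]
          exact Nat.mul_le_mul_left _ (by omega)) hS
      obtain ⟨H, h1, h2, h3, h4⟩ := decomp_disj (G \ P) k (fun v => by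
        have h4 : (G \ P).neighborSet v = G.neighborSet v \ P.neighborSet v := by
          ext u
          simp
        have h5 : P.neighborSet v ⊆ G.neighborSet v := fun u hu => hPG hu
        have h6 := Set.ncard_sdiff_add_ncard_of_subset h5 (Set.toFinite _)
        have h7 := hPpos v
        rw [hreg v] at h6
        rw [h4]
        omega)
      have key := cov_LS G H P Y (fun i => (h3 i).trans sdiff_le) hPG h4
        (fun i u v h h' => ((SimpleGraph.sdiff_adj _ _ _ _).1 (h3 i h')).2 h) h1 hP1 hP2
        (fun a ha b hb hab => by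
          have h6 := hsep a ha b hb hab.ne (hPG hab).toWalk
          have h7 : (hPG hab).toWalk.length = 1 := by simp [SimpleGraph.Adj.toWalk]
          omega)
        (32 * k + 28) _ (by rw [Fintype.card_fin]) (by omega) hS
        (fun a ha b hb hab p => by
          have := hsep a ha b hb hab p
          omega)
      rw [Fintype.card_fin, h2] at key
      have h6 : P ⊔ G \ P = G := by
        rw [sup_sdiff_self_right]
        exact sup_eq_right.2 hPG
      rwa [h6] at key

theorem Sparse.mono {V : Type} {G : SimpleGraph V} {m m' : ℕ} (h : m' ≤ m) (hS : Sparse G m) :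
    Sparse G m' := fun U hU => hS U (hU.trans h)

end Pool.Agent.Run7.H778.LS
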