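import Pool.Agent.Run7.h778.LS.Det2
import Pool.Agent.Run7.h778.RL.Lift

set_option autoImplicit false

/-!
Almost all lifts of a graph are locally sparse.
-/

namespace Pool.Agent.Run7.H778.LS

open Finset SimpleGraph H931R3.LA Pool.Agent.W111.LAR Pool.Agent.Run7.H778.RL Function

/-- A graph with an orientation. -/
structure Ori (V : Type) where
  H : SimpleGraph V
  D : V → V → Prop
  hD : ∀ u v, H.Adj u v ↔ D u v ∨ D v u
  asym : ∀ u v, D u v → ¬ D v u

theorem exists_ori {V : Type} [Finite V] (H : SimpleGraph V) : ∃ B : Ori V, B.H = H := by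
  obtain ⟨ι⟩ : Nonempty (V ≃ Fin (Nat.card V)) := ⟨Finite.equivFin V⟩
  refine ⟨{
    H := H
    D := fun u v => H.Adj u v ∧ ι u < ι v
    hD := ?_
    asym := fun u v h h' => absurd (h.2.trans h'.2) (lt_irrefl _) }, rfl⟩
  intro u v
  constructor
  · intro h
    rcases lt_trichotomy (ι u) (ι v) with h3 | h3 | h3
    · exact Or.inl ⟨h, h3⟩
    · exact absurd (ι.injective h3) h.ne
    · exact Or.inr ⟨h.symm, h3⟩
  · rintro (h | h)
    · exact h.1
    · exact h.1.symm

namespace Ori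

variable {V : Type} (B : Ori V) (n : ℕ)

/-- The arcs. -/
abbrev Arc : Type := {p : V × V // B.D p.1 p.2}

/-- The labellings of the arcs by permutations. -/
abbrev S : Type := B.Arc → Equiv.Perm (Fin n)

variable {n}

/-- The lift given by a labelling. -/
def lg (s : B.S n) : SimpleGraph (V × Fin n) where
  Adj x y := (∃ h : B.D x.1 y.1, s ⟨(x.1, y.1), h⟩ x.2 = y.2) ∨
    ∃ h : B.D y.1 x.1, s ⟨(y.1, x.1), h⟩ y.2 = x.2
  symm.symm := fun _ _ h => h.symm
  loopless.irrefl := by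
    rintro x (⟨h, _⟩ | ⟨h, _⟩)
    · exact B.asym _ _ h h
    · exact B.asym _ _ h h

theorem lg_left (s : B.S n) {x y : V × Fin n} (h : B.D x.1 y.1) :
    (B.lg s).Adj x y ↔ s ⟨(x.1, y.1), h⟩ x.2 = y.2 := by
  constructor
  · rintro (⟨_, h2⟩ | ⟨h1, _⟩)
    · exact h2
    · exact absurd h1 (B.asym _ _ h)
  · intro h2
    exact Or.inl ⟨h, h2⟩

theorem lg_right (s : B.S n) {x y : V × Fin n} (h : B.D y.1 x.1) :
    (B.lg s).Adj x y ↔ s ⟨(y.1, x.1), h⟩ y.2 = x.2 := by
  rw [SimpleGraph.adj_comm]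
  exact B.lg_left s h

theorem isLift (s : B.S n) : IsLift B.H n (B.lg s) := by
  refine ⟨?_, ?_⟩
  · rintro x y (⟨h, _⟩ | ⟨h, _⟩)
    · exact (B.hD _ _).2 (Or.inl h)
    · exact (B.hD _ _).2 (Or.inr h)
  · rintro x w h
    rcases (B.hD _ _).1 h with h1 | h1
    · refine ⟨s ⟨(x.1, w), h1⟩ x.2, ?_, ?_⟩
      · exact (B.lg_left s (y := (w, _)) h1).2 rfl
      · intro b hb
        exact ((B.lg_left s (y := (w, b)) h1).1 hb).symm
    · refine ⟨(s ⟨(w, x.1), h1⟩).symm x.2, ?_, ?_⟩
      · exact (B.lg_right s (y := (w, _)) h1).2 (Equiv.apply_symm_apply _ _)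
      · intro b hb
        rw [Equiv.eq_symm_apply]
        exact (B.lg_right s (y := (w, b)) h1).1 hb

theorem lg_injective : Injective (B.lg (n := n)) := by
  intro s s' h
  funext p
  ext1 a
  obtain ⟨⟨u, w⟩, hp⟩ := p
  have h1 : (B.lg s).Adj (u, a) (w, s ⟨(u, w), hp⟩ a) :=
    (B.lg_left s (x := (u, a)) (y := (w, _)) hp).2 rfl
  rw [h] at h1
  exact ((B.lg_left s' (x := (u, a)) (y := (w, _)) hp).1 h1).symm

theorem exists_lg (G : SimpleGraph (V × Fin n)) (hG : IsLift B.H n G) : ∃ s, B.lg s = G := by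
  have h1 : ∀ (x : V × Fin n) (w : V), ∃ b : Fin n, B.H.Adj x.1 w →
      G.Adj x (w, b) ∧ ∀ b', G.Adj x (w, b') → b' = b := by
    intro x w
    by_cases h : B.H.Adj x.1 w
    · obtain ⟨b, h2, h3⟩ := hG.2 x w h
      exact ⟨b, fun _ => ⟨h2, h3⟩⟩
    · exact ⟨x.2, fun h2 => absurd h2 h⟩
  choose f hf using h1
  let s : B.S n := fun p =>
    { toFun := fun a => f (p.1.1, a) p.1.2
      invFun := fun b => f (p.1.2, b) p.1.1
      left_inv := by
        intro a
        have h2 : B.H.Adj p.1.1 p.1.2 := (B.hD _ _).2 (Or.inl p.2)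
        have h3 := (hf (p.1.1, a) p.1.2 h2).1
        exact ((hf (p.1.2, f (p.1.1, a) p.1.2) p.1.1 h2.symm).2 a h3.symm).symm
      right_inv := by
        intro b
        have h2 : B.H.Adj p.1.1 p.1.2 := (B.hD _ _).2 (Or.inl p.2)
        have h3 := (hf (p.1.2, b) p.1.1 h2.symm).1
        exact ((hf (p.1.1, f (p.1.2, b) p.1.1) p.1.2 h2).2 b h3.symm).symm }
  refine ⟨s, ?_⟩
  have key : ∀ x y : V × Fin n, B.D x.1 y.1 → ((B.lg s).Adj x y ↔ G.Adj x y) := by
    intro x y h
    rw [B.lg_left s h]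
    have h2 : B.H.Adj x.1 y.1 := (B.hD _ _).2 (Or.inl h)
    have h3 := hf x y.1 h2
    show f (x.1, x.2) y.1 = y.2 ↔ _
    constructor
    · intro h4
      have h5 := h3.1
      rw [show f x y.1 = y.2 from h4] at h5
      exact h5
    · intro h4
      exact (h3.2 y.2 h4).symm
  ext x y
  constructor
  · intro h
    have h2 := (B.isLift s).1 x y h
    rcases (B.hD _ _).1 h2 with h3 | h3
    · exact (key x y h3).1 h
    · exact ((key y x h3).1 h.symm).symm
  · intro h
    have h2 := hG.1 x y h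
    rcases (B.hD _ _).1 h2 with h3 | h3
    · exact (key x y h3).2 h
    · exact ((key y x h3).2 h.symm).symm

/-- Counting lifts. -/
theorem ncard_lift (Q : SimpleGraph (V × Fin n) → Prop) :
    {G : SimpleGraph (V × Fin n) | IsLift B.H n G ∧ Q G}.ncard = {s : B.S n | Q (B.lg s)}.ncard := by
  rw [← Set.ncard_image_of_injective _ B.lg_injective]
  congr 1
  ext G
  simp only [Set.mem_ofPred_eq, Set.mem_image]
  constructor
  · rintro ⟨h1, h2⟩
    obtain ⟨s, rfl⟩ := B.exists_lg G h1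
    exact ⟨s, h2, rfl⟩
  · rintro ⟨s, h, rfl⟩
    exact ⟨B.isLift s, h⟩

/-- The number of arcs. -/
theorem card_arc [Finite V] : Nat.card B.Arc = B.H.edgeSet.ncard := by
  classical
  rw [← Nat.card_coe_set_eq]
  refine Nat.card_congr (Equiv.ofBijective
    (fun p : B.Arc => (⟨s(p.1.1, p.1.2), (B.hD _ _).2 (Or.inl p.2)⟩ : B.H.edgeSet)) ⟨?_, ?_⟩)
  · rintro ⟨⟨u, v⟩, h⟩ ⟨⟨u', v'⟩, h'⟩ he
    have h1 : s(u, v) = s(u', v') := congrArg Subtype.val he
    rcases Sym2.eq_iff.1 h1 with ⟨rfl, rfl⟩ | ⟨rfl, rfl⟩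
    · rfl
    · exact absurd h' (B.asym _ _ h)
  · rintro ⟨e, he⟩
    induction e using Sym2.ind with
    | _ u v =>
      rcases (B.hD u v).1 he with h | h
      · exact ⟨⟨(u, v), h⟩, rfl⟩
      · exact ⟨⟨(v, u), h⟩, Subtype.ext Sym2.eq_swap⟩

theorem card_S [Finite V] (n : ℕ) : Nat.card (B.S n) = n.factorial ^ B.H.edgeSet.ncard := by
  rw [← B.card_arc, Nat.card_fun, Nat.card_perm, Nat.card_fin]

/-- The labellings whose lift contains the arcs in `F`. -/
def AF (n : ℕ) (F : Finset ((V × Fin n) × (V × Fin n))) : Set (B.S n) :=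
  {s | ∀ p ∈ F, B.D p.1.1 p.2.1 ∧ (B.lg s).Adj p.1 p.2}

theorem AF_step [Finite V] [DecidableEq V] (n : ℕ) (F : Finset ((V × Fin n) × (V × Fin n)))
    (p0 : (V × Fin n) × (V × Fin n)) (hp0 : p0 ∉ F) :
    (B.AF n (insert p0 F)).ncard * (n - F.card) ≤ (B.AF n F).ncard := by
  classical
  have := Fintype.ofFinite V
  by_cases hD0 : B.D p0.1.1 p0.2.1
  · set e0 : B.Arc := ⟨(p0.1.1, p0.2.1), hD0⟩ with he0
    let bad : Finset (Fin n) := F.image (fun p => p.2.2)
    have hbad : bad.card ≤ F.card := card_image_le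
    have h0 : ∀ s ∈ B.AF n (insert p0 F), s e0 p0.1.2 = p0.2.2 := by
      intro s hs
      exact (B.lg_left s hD0).1 (hs p0 (mem_insert_self _ _)).2
    have h1 : Nat.card (B.AF n (insert p0 F) × {c : Fin n // c ∉ bad}) ≤ Nat.card (B.AF n F) := by
      refine Nat.card_le_card_of_injective (fun q => (⟨update q.1.1 e0
        (Equiv.swap p0.2.2 q.2.1 * q.1.1 e0), ?_⟩ : B.AF n F)) ?_
      · obtain ⟨⟨s, hs⟩, ⟨c, hc⟩⟩ := q
        intro p hp
        obtain ⟨h2, h3⟩ := hs p (mem_insert_of_mem hp)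
        refine ⟨h2, ?_⟩
        rw [B.lg_left _ h2] at h3 ⊢
        by_cases he : (⟨(p.1.1, p.2.1), h2⟩ : B.Arc) = e0
        · rw [he] at h3 ⊢
          rw [Function.update_self, Equiv.Perm.mul_apply, h3]
          refine Equiv.swap_apply_of_ne_of_ne ?_ ?_
          · intro h4
            rw [h4, ← h0 s hs] at h3
            have h5 := (s e0).injective h3
            have h6 : (p.1.1, p.2.1) = (p0.1.1, p0.2.1) := congrArg Subtype.val he
            obtain ⟨h7, h8⟩ := Prod.ext_iff.1 h6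
            apply hp0
            have h9 : p = p0 := Prod.ext (Prod.ext h7 h5) (Prod.ext h8 h4)
            rw [← h9]
            exact hp
          · intro h4
            have h5 : p.2.2 = c := h4
            apply hc
            rw [← h5]
            exact mem_image_of_mem (fun p : (V × Fin n) × (V × Fin n) => p.2.2) hp
        · rw [Function.update_of_ne he]
          exact h3
      · rintro ⟨⟨s, hs⟩, ⟨c, hc⟩⟩ ⟨⟨s', hs'⟩, ⟨c', hc'⟩⟩ h
        have h2 : ∀ p, update s e0 (Equiv.swap p0.2.2 c * s e0) p =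
            update s' e0 (Equiv.swap p0.2.2 c' * s' e0) p :=
          fun p => congrFun (congrArg Subtype.val h) p
        have h3 := h2 e0
        rw [Function.update_self, Function.update_self] at h3
        have h4 := congrArg (fun f : Equiv.Perm (Fin n) => f p0.1.2) h3
        simp only [Equiv.Perm.mul_apply, h0 s hs, h0 s' hs', Equiv.swap_apply_left] at h4
        subst h4
        have h5 : s = s' := by
          funext p
          by_cases hp : p = e0
          · rw [hp]; exact mul_left_cancel h3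
          · have := h2 p
            rwa [Function.update_of_ne hp, Function.update_of_ne hp] at this
        subst h5
        rfl
    rw [Nat.card_prod, Nat.card_coe_set_eq, Nat.card_coe_set_eq] at h1
    refine le_trans (Nat.mul_le_mul_left _ ?_) h1
    rw [Nat.card_eq_fintype_card, Fintype.card_subtype_compl, Fintype.card_fin,
      Fintype.card_coe]
    omega
  · have h1 : B.AF n (insert p0 F) = ∅ := by
      ext s
      simp only [Set.mem_empty_iff_false, iff_false]
      intro hs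
      exact hD0 (hs p0 (mem_insert_self _ _)).1
    rw [h1, Set.ncard_empty, Nat.zero_mul]
    exact Nat.zero_le _

theorem AF_le [Finite V] (n : ℕ) (F : Finset ((V × Fin n) × (V × Fin n))) :
    (B.AF n F).ncard * (n - F.card) ^ F.card ≤ Nat.card (B.S n) := by
  classical
  induction F using Finset.induction_on with
  | empty =>
    rw [card_empty, pow_zero, mul_one]
    exact (Set.ncard_le_ncard (Set.subset_univ _) (Set.toFinite _)).trans (Set.ncard_univ _).le
  | insert p0 F hp0 ih =>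
    have h1 := B.AF_step n F p0 hp0
    rw [card_insert_of_notMem hp0, pow_succ]
    have h2 : (n - (F.card + 1)) ^ F.card * (n - (F.card + 1)) ≤
        (n - F.card) ^ F.card * (n - F.card) :=
      Nat.mul_le_mul (Nat.pow_le_pow_left (by omega) _) (by omega)
    calc (B.AF n (insert p0 F)).ncard * ((n - (F.card + 1)) ^ F.card * (n - (F.card + 1)))
        ≤ (B.AF n (insert p0 F)).ncard * ((n - F.card) ^ F.card * (n - F.card)) :=
          Nat.mul_le_mul_left _ h2
      _ = ((B.AF n (insert p0 F)).ncard * (n - F.card)) * (n - F.card) ^ F.card := by ring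
      _ ≤ (B.AF n F).ncard * (n - F.card) ^ F.card := Nat.mul_le_mul_right _ h1
      _ ≤ _ := ih

/-- A lift which is not locally sparse contains a dense set of arcs. -/
theorem exists_dense [Finite V] (n m : ℕ) (s : B.S n) (h : ¬ Sparse (B.lg s) m) :
    ∃ (U : Finset (V × Fin n)) (F : Finset ((V × Fin n) × (V × Fin n))), U.card ≤ m ∧
      F ⊆ U ×ˢ U ∧ F.card = U.card + 1 ∧ s ∈ B.AF n F := by
  classical
  unfold Sparse at h
  push Not at h
  obtain ⟨U, h1, h2⟩ := h
  set O := (U ×ˢ U).filter (fun p => B.D p.1.1 p.2.1 ∧ (B.lg s).Adj p.1 p.2) with hO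
  have h3 : eIn (B.lg s) U ⊆ ((O.image (fun p => s(p.1, p.2)) : Finset (Sym2 (V × Fin n))) :
      Set (Sym2 (V × Fin n))) := by
    intro e
    induction e using Sym2.ind with
    | _ a b =>
      intro he
      obtain ⟨h4, h5, h6⟩ := mem_eIn.1 he
      rw [mem_coe, mem_image]
      rcases (B.hD _ _).1 ((B.isLift s).1 a b h4) with h7 | h7
      · exact ⟨(a, b), mem_filter.2 ⟨mem_product.2 ⟨h5, h6⟩, h7, h4⟩, rfl⟩
      · exact ⟨(b, a), mem_filter.2 ⟨mem_product.2 ⟨h6, h5⟩, h7, h4.symm⟩, Sym2.eq_swap⟩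
  have h4 := Set.ncard_le_ncard h3 (Set.toFinite _)
  rw [Set.ncard_coe_finset] at h4
  have h5 : U.card + 1 ≤ O.card := by
    have := card_image_le (s := O) (f := fun p : (V × Fin n) × (V × Fin n) => s(p.1, p.2))
    omega
  obtain ⟨F, hF1, hF2⟩ := exists_subset_card_eq h5
  exact ⟨U, F, h1, hF1.trans (filter_subset _ _), hF2, fun p hp => (mem_filter.1 (hF1 hp)).2⟩

theorem sparse_count [Fintype V] [Nonempty V] (m n : ℕ) (hn : 2 * (m + 1) ≤ n) :
    ({s : B.S n | ¬ Sparse (B.lg s) m}.ncard : ℝ) ≤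
      2 * (m + 1) * (2 * Fintype.card V) ^ m * 2 ^ (m * m) / n * Nat.card (B.S n) := by
  classical
  set N : ℝ := (Nat.card (B.S n) : ℝ) with hN
  have hN0 : 0 ≤ N := Nat.cast_nonneg _
  set W : ℝ := (Fintype.card V : ℝ) with hW
  have hW1 : 1 ≤ W := by
    rw [hW]
    exact_mod_cast Fintype.card_pos
  have hn0 : (0 : ℝ) < n := by exact_mod_cast (by omega : 0 < n)
  have hAF : ∀ F : Finset ((V × Fin n) × (V × Fin n)), F.card ≤ m + 1 →
      ((B.AF n F).ncard : ℝ) ≤ N / ((n : ℝ) / 2) ^ F.card := by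
    intro F hF
    have h1 := B.AF_le n F
    have h2 : ((B.AF n F).ncard : ℝ) * ((n - F.card : ℕ) : ℝ) ^ F.card ≤ N := by
      rw [hN]; exact_mod_cast h1
    have h3 : (n : ℝ) / 2 ≤ ((n - F.card : ℕ) : ℝ) := by
      have h4 : n ≤ 2 * (n - F.card) := by omega
      have h5 : ((n : ℕ) : ℝ) ≤ ((2 * (n - F.card) : ℕ) : ℝ) := by exact_mod_cast h4
      push_cast [Nat.cast_sub (show F.card ≤ n by omega)] at h5 ⊢
      linarith
    rw [le_div_iff₀ (by positivity)]
    refine le_trans ?_ h2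
    exact mul_le_mul_of_nonneg_left (pow_le_pow_left₀ (by positivity) h3 _) (Nat.cast_nonneg _)
  have hsub : {s : B.S n | ¬ Sparse (B.lg s) m} ⊆
      (((range (m + 1)).biUnion (fun v => (powersetCard v (univ : Finset (V × Fin n))).biUnion
        (fun U => (powersetCard (v + 1) (U ×ˢ U)).biUnion
          (fun F => (Set.toFinite (B.AF n F)).toFinset))) : Finset (B.S n)) : Set (B.S n)) := by
    intro s hs
    obtain ⟨U, F, h1, h2, h3, h4⟩ := B.exists_dense n m s hs
    rw [mem_coe, mem_biUnion]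
    refine ⟨U.card, mem_range.2 (by omega), mem_biUnion.2 ⟨U, ?_, mem_biUnion.2 ⟨F, ?_, ?_⟩⟩⟩
    · exact mem_powersetCard.2 ⟨subset_univ _, rfl⟩
    · exact mem_powersetCard.2 ⟨h2, h3⟩
    · exact (Set.Finite.mem_toFinset _).2 h4
  have h1 := Set.ncard_le_ncard hsub (Set.toFinite _)
  rw [Set.ncard_coe_finset] at h1
  have h2 : ((range (m + 1)).biUnion (fun v => (powersetCard v (univ : Finset (V × Fin n))).biUnion
        (fun U => (powersetCard (v + 1) (U ×ˢ U)).biUnion
          (fun F => (Set.toFinite (B.AF n F)).toFinset)))).card ≤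
      ∑ v ∈ range (m + 1), ∑ U ∈ powersetCard v (univ : Finset (V × Fin n)),
        ∑ F ∈ powersetCard (v + 1) (U ×ˢ U), (B.AF n F).ncard := by
    refine card_biUnion_le.trans (sum_le_sum fun v _ => ?_)
    refine card_biUnion_le.trans (sum_le_sum fun U _ => ?_)
    refine card_biUnion_le.trans (sum_le_sum fun F _ => ?_)
    rw [← Set.ncard_eq_toFinset_card]
  have h3 : ({s : B.S n | ¬ Sparse (B.lg s) m}.ncard : ℝ) ≤
      ∑ v ∈ range (m + 1), ∑ U ∈ powersetCard v (univ : Finset (V × Fin n)),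
        ∑ F ∈ powersetCard (v + 1) (U ×ˢ U), ((B.AF n F).ncard : ℝ) := by
    have := h1.trans h2
    exact_mod_cast this
  have h4 : ∀ v ∈ range (m + 1), (∑ U ∈ powersetCard v (univ : Finset (V × Fin n)),
        ∑ F ∈ powersetCard (v + 1) (U ×ˢ U), ((B.AF n F).ncard : ℝ)) ≤
        2 * (2 * W) ^ m * 2 ^ (m * m) / n * N := by
    intro v hv
    have hvm : v ≤ m := by have := mem_range.1 hv; omega
    have h5 : ∀ U ∈ powersetCard v (univ : Finset (V × Fin n)),
        (∑ F ∈ powersetCard (v + 1) (U ×ˢ U), ((B.AF n F).ncard : ℝ)) ≤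
        2 ^ (m * m) * (N / ((n : ℝ) / 2) ^ (v + 1)) := by
      intro U hU
      have hUc : U.card = v := (mem_powersetCard.1 hU).2
      have h6 : ∀ F ∈ powersetCard (v + 1) (U ×ˢ U), ((B.AF n F).ncard : ℝ) ≤
          N / ((n : ℝ) / 2) ^ (v + 1) := by
        intro F hF
        have h7 := (mem_powersetCard.1 hF).2
        have h8 := hAF F (by omega)
        rwa [h7] at h8
      refine (sum_le_sum h6).trans ?_
      rw [sum_const, nsmul_eq_mul, card_powersetCard, card_product, hUc]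
      refine mul_le_mul_of_nonneg_right ?_ (by positivity)
      have h7 : (v * v).choose (v + 1) ≤ 2 ^ (m * m) :=
        (Nat.choose_le_two_pow _ _).trans
          (Nat.pow_le_pow_right (by norm_num) (Nat.mul_le_mul hvm hvm))
      exact_mod_cast h7
    refine (sum_le_sum h5).trans ?_
    rw [sum_const, nsmul_eq_mul, card_powersetCard, card_univ, Fintype.card_prod,
      Fintype.card_fin]
    have h6 : (((Fintype.card V * n).choose v : ℕ) : ℝ) ≤ (W * n) ^ v := by
      have h7 : (Fintype.card V * n).choose v ≤ (Fintype.card V * n) ^ v := Nat.choose_le_pow _ _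
      calc (((Fintype.card V * n).choose v : ℕ) : ℝ) ≤ (((Fintype.card V * n) ^ v : ℕ) : ℝ) := by
            exact_mod_cast h7
        _ = (W * n) ^ v := by push_cast; rfl
    have h7 : (W * n) ^ v * (2 ^ (m * m) * (N / ((n : ℝ) / 2) ^ (v + 1))) =
        2 * (2 * W) ^ v * 2 ^ (m * m) / n * N := by
      rw [mul_pow, mul_pow, div_pow, pow_succ, pow_succ]
      field_simp
    have h8 : (2 * W) ^ v ≤ (2 * W) ^ m := pow_le_pow_right₀ (by linarith) hvm
    calc (((Fintype.card V * n).choose v : ℕ) : ℝ) * (2 ^ (m * m) * (N / ((n : ℝ) / 2) ^ (v + 1)))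
        ≤ (W * n) ^ v * (2 ^ (m * m) * (N / ((n : ℝ) / 2) ^ (v + 1))) :=
          mul_le_mul_of_nonneg_right h6 (by positivity)
      _ = 2 * (2 * W) ^ v * 2 ^ (m * m) / n * N := h7
      _ ≤ 2 * (2 * W) ^ m * 2 ^ (m * m) / n * N := by
          refine mul_le_mul_of_nonneg_right ?_ hN0
          refine div_le_div_of_nonneg_right ?_ hn0.le
          refine mul_le_mul_of_nonneg_right ?_ (by positivity)
          exact mul_le_mul_of_nonneg_left h8 (by norm_num)
  refine h3.trans ((sum_le_sum h4).trans (le_of_eq ?_))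
  rw [sum_const, nsmul_eq_mul, card_range]
  push_cast
  ring

end Ori

/-- Degrees in lifts. -/
theorem lift_deg {V : Type} [Finite V] {H : SimpleGraph V} {n : ℕ} {G : SimpleGraph (V × Fin n)}
    (hG : IsLift H n G) (x : V × Fin n) : (G.neighborSet x).ncard = (H.neighborSet x.1).ncard := by
  rw [← Nat.card_coe_set_eq, ← Nat.card_coe_set_eq]
  refine Nat.card_congr (Equiv.ofBijective
    (fun y : G.neighborSet x => (⟨y.1.1, hG.1 _ _ y.2⟩ : H.neighborSet x.1)) ⟨?_, ?_⟩)
  · rintro ⟨⟨w, b⟩, h⟩ ⟨⟨w', b'⟩, h'⟩ he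
    have h1 : w = w' := congrArg Subtype.val he
    subst h1
    obtain ⟨b0, _, h2⟩ := hG.2 x w (hG.1 _ _ h)
    have h3 : b = b' := (h2 b h).trans (h2 b' h').symm
    subst h3
    rfl
  · rintro ⟨w, hw⟩
    obtain ⟨b, h1, _⟩ := hG.2 x w hw
    exact ⟨⟨(w, b), h1⟩, rfl⟩

/-- Almost all lifts are locally sparse. -/
theorem sparse_lift {V : Type} [Finite V] [Nonempty V] (H : SimpleGraph V) :
    (∀ n : ℕ, {G : SimpleGraph (V × Fin n) | IsLift H n G}.ncard =
      n.factorial ^ H.edgeSet.ncard) ∧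
    ∀ m : ℕ, ∃ C : ℝ, ∀ n : ℕ, 1 ≤ n →
      ({G : SimpleGraph (V × Fin n) | IsLift H n G ∧ ¬ Sparse G m}.ncard : ℝ) ≤
        C / n * {G : SimpleGraph (V × Fin n) | IsLift H n G}.ncard := by
  classical
  have := Fintype.ofFinite V
  obtain ⟨B, rfl⟩ := exists_ori H
  have hcount : ∀ n : ℕ, {G : SimpleGraph (V × Fin n) | IsLift B.H n G}.ncard =
      Nat.card (B.S n) := by
    intro n
    have h1 := B.ncard_lift (n := n) (fun _ => True)
    simp only [and_true] at h1
    rw [h1, Set.ofPred_true, Set.ncard_univ]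
  refine ⟨fun n => by rw [hcount, B.card_S], fun m => ?_⟩
  refine ⟨2 * (m + 1) * (2 * Fintype.card V) ^ m * 2 ^ (m * m) + 2 * (m + 1), fun n hn => ?_⟩
  have hn0 : (0 : ℝ) < n := by exact_mod_cast hn
  have hN0 : (0 : ℝ) ≤ Nat.card (B.S n) := Nat.cast_nonneg _
  have hC0 : (0 : ℝ) ≤ 2 * (m + 1) * (2 * Fintype.card V) ^ m * 2 ^ (m * m) := by positivity
  rw [hcount, B.ncard_lift (fun G => ¬ Sparse G m)]
  by_cases hsmall : n < 2 * (m + 1)
  · have h1 : ({s : B.S n | ¬ Sparse (B.lg s) m}.ncard : ℝ) ≤ Nat.card (B.S n) := by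
      exact_mod_cast (Set.ncard_le_ncard (Set.subset_univ _) (Set.toFinite _)).trans
        (Set.ncard_univ _).le
    refine h1.trans ?_
    have h2 : (1 : ℝ) ≤ (2 * (m + 1) * (2 * Fintype.card V) ^ m * 2 ^ (m * m) + 2 * (m + 1)) / n := by
      rw [le_div_iff₀ hn0, one_mul]
      have h3 : ((n : ℕ) : ℝ) ≤ ((2 * (m + 1) : ℕ) : ℝ) := by exact_mod_cast hsmall.le
      push_cast at h3
      linarith
    calc (Nat.card (B.S n) : ℝ) = 1 * Nat.card (B.S n) := (one_mul _).symm
      _ ≤ _ := mul_le_mul_of_nonneg_right h2 hN0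
  · have h1 := B.sparse_count m n (not_lt.1 hsmall)
    refine h1.trans (mul_le_mul_of_nonneg_right ?_ hN0)
    refine div_le_div_of_nonneg_right ?_ hn0.le
    have : (0 : ℝ) ≤ 2 * (m + 1) := by positivity
    linarith

/-- Transfer of a consequence of local sparsity to almost all lifts. -/
theorem transfer {V : Type} [Finite V] [Nonempty V] (H : SimpleGraph V) (m : ℕ)
    (Q : (n : ℕ) → SimpleGraph (V × Fin n) → Prop)
    (hQ : ∀ (n : ℕ) (G : SimpleGraph (V × Fin n)), 1 ≤ n → IsLift H n G → Sparse G m → Q n G) :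
    ∃ C : ℝ, ∀ n : ℕ, 1 ≤ n →
      ({G : SimpleGraph (V × Fin n) | IsLift H n G ∧ ¬ Q n G}.ncard : ℝ) ≤
        C / n * {G : SimpleGraph (V × Fin n) | IsLift H n G}.ncard := by
  obtain ⟨C, hC⟩ := (sparse_lift H).2 m
  refine ⟨C, fun n hn => le_trans ?_ (hC n hn)⟩
  have hsub : {G : SimpleGraph (V × Fin n) | IsLift H n G ∧ ¬ Q n G} ⊆
      {G : SimpleGraph (V × Fin n) | IsLift H n G ∧ ¬ Sparse G m} :=
    fun G hG => ⟨hG.1, fun h => hG.2 (hQ n G hn hG.1 h)⟩
  exact_mod_cast Set.ncard_le_ncard hsub (Set.toFinite _)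

end Pool.Agent.Run7.H778.LS
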