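import Pool.Agent.Run7.h778.LS.Deep
import Pool.Agent.W111.LAR.Odd2
import Pool.Agent.W111.LAR.Top

set_option autoImplicit false

/-!
Selections in locally sparse graphs.
-/

namespace Pool.Agent.Run7.H778.LS

open Finset SimpleGraph H931R3.LA Pool.Agent.W111.LAR Pool.Agent.Run7.H778.RL

/-- A selection without conflicts gives a covering (the second part of the proof of the starting
result `cov_spanning`). -/
theorem cov_of_sel2 {V κ : Type} [Finite V] [Fintype κ] (H : κ → SimpleGraph V)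
    (P : SimpleGraph V) (Y : Set V) (hdeg : ∀ i v, ((H i).neighborSet v).ncard ≤ 2)
    (hP1 : ∀ v, v ∉ Y → (P.neighborSet v).ncard ≤ 1) (hP2 : ∀ v, (P.neighborSet v).ncard ≤ 2)
    (hYY : ∀ a ∈ Y, ∀ b ∈ Y, ¬ P.Adj a b) (key : V → ℕ)
    (hk1 : ∀ v w, P.Adj v w → key v = key w)
    (hk2 : ∀ v w, key v = key w → v = w ∨ P.Adj v w ∨ ∃ y, P.Adj y v ∧ P.Adj y w)
    (s : II H → EE H) (hs : ∀ c, cl (s c) = c ∧ aa (s c) ∉ Y ∧ bb (s c) ∉ Y)
    (hind : ∀ c c', c ≠ c' → ¬ conf (partner P Y) key (s c) (s c'))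
    (htri : ∀ c y, ¬ (P.Adj y (aa (s c)) ∧ P.Adj y (bb (s c)))) :
    Cov (P ⊔ ⨆ i, H i) (Fintype.card κ + 1) := by
  classical
  -- selected edges at a vertex
  have hselinc : ∀ v u, (selGraph aa bb s).Adj v u → ∃ c, s(aa (s c), bb (s c)) = s(v, u) := by
    rintro v u ⟨_, c, hc⟩
    refine ⟨c, ?_⟩
    rcases hc with ⟨h1, h2⟩ | ⟨h1, h2⟩
    · rw [h1, h2]
    · rw [h1, h2, Sym2.eq_swap]
  have hselincv : ∀ v u c, s(aa (s c), bb (s c)) = s(v, u) → (aa (s c) = v ∨ bb (s c) = v) := by
    intro v u c h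
    rcases Sym2.eq_iff.1 h with ⟨h1, _⟩ | ⟨_, h1⟩
    · exact Or.inl h1
    · exact Or.inr h1
  have hselY : ∀ v u, (selGraph aa bb s).Adj v u → v ∉ Y := by
    intro v u h
    obtain ⟨c, hc⟩ := hselinc v u h
    rcases hselincv v u c hc with h1 | h1
    · rw [← h1]; exact (hs c).2.1
    · rw [← h1]; exact (hs c).2.2
  have hselH : ∀ v u, (selGraph aa bb s).Adj v u → ∃ i, (H i).Adj v u := by
    rintro v u ⟨_, c, hc⟩
    refine ⟨(s c).1.1, ?_⟩
    rcases hc with ⟨h1, h2⟩ | ⟨h1, h2⟩
    · rw [← h1, ← h2]; exact adj_ends _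
    · rw [← h1, ← h2]; exact (adj_ends _).symm
  have hseluniq : ∀ v u u', (selGraph aa bb s).Adj v u → (selGraph aa bb s).Adj v u' →
      u = u' := by
    intro v u u' h h'
    obtain ⟨c, hc⟩ := hselinc v u h
    obtain ⟨c', hc'⟩ := hselinc v u' h'
    have hcc : c = c' := by
      by_contra hne
      exact hind c c' hne ⟨by rw [(hs c).1, (hs c').1]; exact hne, Or.inl ⟨v, hselincv v u c hc,
        hselincv v u' c' hc'⟩⟩
    subst hcc
    exact Sym2.congr_right.1 (hc.symm.trans hc')
  have hPuniq : ∀ v w w', v ∉ Y → P.Adj v w → P.Adj v w' → w = w' := fun v w w' hv h h' =>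
    (Set.ncard_le_one (Set.toFinite _)).1 (hP1 v hv) w h w' h'
  have hup : ∀ v u, (selGraph aa bb s).Adj v u → key v < key u →
      ∃ c, s(aa (s c), bb (s c)) = s(v, u) ∧ upAt key (s c) v := by
    intro v u h hlt
    obtain ⟨c, hc⟩ := hselinc v u h
    refine ⟨c, hc, ?_⟩
    rcases Sym2.eq_iff.1 hc with ⟨h1, h2⟩ | ⟨h1, h2⟩
    · exact Or.inl ⟨h1, by rw [h2]; exact hlt⟩
    · exact Or.inr ⟨h2, by rw [h1]; exact hlt⟩
  have hQ : IsLF (P ⊔ selGraph aa bb s) := by
    constructor
    · intro v0 c hc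
      -- the two neighbours on the cycle
      have two : ∀ w ∈ c.support, ∃ x y, (P ⊔ selGraph aa bb s).Adj w x ∧
          (P ⊔ selGraph aa bb s).Adj w y ∧ x ≠ y ∧ x ∈ c.support ∧ y ∈ c.support := by
        intro w hw
        have h2 := hc.ncard_neighborSet_toSubgraph_eq_two hw
        obtain ⟨x, y, hxy, hset⟩ := Set.ncard_eq_two.1 h2
        have hx : c.toSubgraph.Adj w x := by
          have : x ∈ c.toSubgraph.neighborSet w := by rw [hset]; simp
          exact this
        have hy : c.toSubgraph.Adj w y := by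
          have : y ∈ c.toSubgraph.neighborSet w := by rw [hset]; simp
          exact this
        have hxs : x ∈ c.support := by
          have := hx.snd_mem
          rwa [Walk.mem_verts_toSubgraph] at this
        have hys : y ∈ c.support := by
          have := hy.snd_mem
          rwa [Walk.mem_verts_toSubgraph] at this
        exact ⟨x, y, hx.adj_sub, hy.adj_sub, hxy, hxs, hys⟩
      have twoY : ∀ w ∈ c.support, w ∈ Y → ∃ x y, P.Adj w x ∧ P.Adj w y ∧ x ≠ y ∧
          x ∈ c.support ∧ y ∈ c.support := by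
        intro w hw hwY
        obtain ⟨x, y, hx, hy, hxy, hxs, hys⟩ := two w hw
        refine ⟨x, y, ?_, ?_, hxy, hxs, hys⟩
        · rcases hx with h | h
          · exact h
          · exact absurd hwY (hselY w x h)
        · rcases hy with h | h
          · exact h
          · exact absurd hwY (hselY w y h)
      have twoN : ∀ w ∈ c.support, w ∉ Y → ∃ x y, P.Adj w x ∧ (selGraph aa bb s).Adj w y ∧
          x ≠ y ∧ x ∈ c.support ∧ y ∈ c.support := by
        intro w hw hwY
        obtain ⟨x, y, hx, hy, hxy, hxs, hys⟩ := two w hw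
        rcases hx with hx1 | hx1 <;> rcases hy with hy1 | hy1
        · exact absurd (hPuniq w x y hwY hx1 hy1) hxy
        · exact ⟨x, y, hx1, hy1, hxy, hxs, hys⟩
        · exact ⟨y, x, hy1, hx1, hxy.symm, hys, hxs⟩
        · exact absurd (hseluniq w x y hx1 hy1) hxy
      obtain ⟨w0, hw0, hmin0⟩ := exists_min_image c.support.toFinset key ⟨v0, by simp⟩
      have hw0' : w0 ∈ c.support := by simpa using hw0
      obtain ⟨w, hw, hwY, hmin⟩ : ∃ w ∈ c.support, w ∉ Y ∧ ∀ u ∈ c.support, key w ≤ key u := by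
        by_cases hY0 : w0 ∈ Y
        · obtain ⟨x, _, hx, _, _, hxs, _⟩ := twoY w0 hw0' hY0
          refine ⟨x, hxs, fun hxY => hYY w0 hY0 x hxY hx, fun u hu => ?_⟩
          rw [← hk1 w0 x hx]
          exact hmin0 u (by simpa using hu)
        · exact ⟨w0, hw0', hY0, fun u hu => hmin0 u (by simpa using hu)⟩
      -- the selected edge at a vertex with minimal key goes up
      have hgo : ∀ u ∈ c.support, u ∉ Y → key u = key w →
          ∃ z, (selGraph aa bb s).Adj u z ∧ key u < key z := by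
        intro u hu huY hku
        obtain ⟨x, y, hx, hy, hxy, _, hys⟩ := twoN u hu huY
        refine ⟨y, hy, lt_of_le_of_ne (hku ▸ hmin y hys) fun h => ?_⟩
        rcases hk2 u y h with h1 | h1 | ⟨z, h1, h2⟩
        · exact hy.ne h1
        · exact hxy (hPuniq u x y huY hx h1)
        · obtain ⟨c0, hc0⟩ := hselinc u y hy
          rcases Sym2.eq_iff.1 hc0 with ⟨h3, h4⟩ | ⟨h3, h4⟩
          · exact htri c0 z ⟨by rw [h3]; exact h1, by rw [h4]; exact h2⟩
          · exact htri c0 z ⟨by rw [h3]; exact h2, by rw [h4]; exact h1⟩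
      obtain ⟨w', hw', hwY', hkw', hpart⟩ : ∃ w' ∈ c.support, w' ∉ Y ∧ key w' = key w ∧
          (partner P Y).Adj w w' := by
        obtain ⟨x, _, hx, _, _, hxs, _⟩ := twoN w hw hwY
        by_cases hxY : x ∈ Y
        · obtain ⟨a, b, ha, hb, hab, has, hbs⟩ := twoY x hxs hxY
          obtain ⟨w', hw'x, hww', hw's⟩ : ∃ w', P.Adj x w' ∧ w ≠ w' ∧ w' ∈ c.support := by
            by_cases hwa : w = a
            · exact ⟨b, hb, fun h => hab (hwa.symm.trans h), hbs⟩
            · exact ⟨a, ha, hwa, has⟩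
          have hw'Y : w' ∉ Y := fun h => hYY x hxY w' h hw'x
          refine ⟨w', hw's, hw'Y, ?_, hww', hwY, hw'Y, Or.inr ⟨x, hxY, hx.symm, hw'x⟩⟩
          rw [← hk1 x w' hw'x, hk1 w x hx]
        · exact ⟨x, hxs, hxY, (hk1 w x hx).symm, hx.ne, hwY, hxY, Or.inl hx⟩
      obtain ⟨y, hy, hlt⟩ := hgo w hw hwY rfl
      obtain ⟨y', hy', hlt'⟩ := hgo w' hw' hwY' hkw'
      obtain ⟨c1, hc1, hu1⟩ := hup w y hy hlt
      obtain ⟨c2, hc2, hu2⟩ := hup w' y' hy' hlt'
      have hne : c1 ≠ c2 := by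
        rintro rfl
        have := hc1.symm.trans hc2
        rcases Sym2.eq_iff.1 this with ⟨h1, _⟩ | ⟨h1, _⟩
        · exact hpart.ne h1
        · rw [← h1] at hlt'
          omega
      exact hind c1 c2 hne ⟨by rw [(hs c1).1, (hs c2).1]; exact hne,
        Or.inr ⟨w, w', hpart, hu1, hu2⟩⟩
    · intro v
      have h1 : (P ⊔ selGraph aa bb s).neighborSet v ⊆ P.neighborSet v ∪
          (selGraph aa bb s).neighborSet v := by
        intro u hu
        rcases hu with hu | hu
        · exact Or.inl hu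
        · exact Or.inr hu
      have h2 := Set.ncard_le_ncard h1 (Set.toFinite _)
      have h3 := Set.ncard_union_le (P.neighborSet v) ((selGraph aa bb s).neighborSet v)
      by_cases hv : v ∈ Y
      · have h4 : (selGraph aa bb s).neighborSet v = ∅ := by
          ext u
          constructor
          · intro hu
            exact absurd hv (hselY v u hu)
          · intro hu
            exact absurd hu (Set.notMem_empty u)
        have h6 : ((selGraph aa bb s).neighborSet v).ncard = 0 := by rw [h4, Set.ncard_empty]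
        have h5 := hP2 v
        omega
      · have h4 : ((selGraph aa bb s).neighborSet v).ncard ≤ 1 :=
          (Set.ncard_le_one (Set.toFinite _)).2 fun u hu u' hu' => hseluniq v u u' hu hu'
        have h5 := hP1 v hv
        omega
  have hmain := assemble hdeg s (fun c => (hs c).1) (P ⊔ selGraph aa bb s) hQ
    (fun c => Or.inr ⟨ends_ne _, c, Or.inl ⟨rfl, rfl⟩⟩)
  have hle : selGraph aa bb s ≤ ⨆ i, H i := by
    intro u v h
    rw [iSup_adj]
    exact hselH u v h
  rwa [sup_assoc, sup_eq_right.2 hle] at hmain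


/-- **Locally sparse graphs.** -/
theorem cov_LS {V κ : Type} [Finite V] [Fintype κ] (G : SimpleGraph V) (H : κ → SimpleGraph V)
    (P : SimpleGraph V) (Y : Set V) (hHG : ∀ i, H i ≤ G) (hPG : P ≤ G)
    (hdis : ∀ i j u v, (H i).Adj u v → (H j).Adj u v → i = j)
    (hPH : ∀ i u v, P.Adj u v → ¬ (H i).Adj u v)
    (hdeg : ∀ i v, ((H i).neighborSet v).ncard ≤ 2)
    (hP1 : ∀ v, v ∉ Y → (P.neighborSet v).ncard ≤ 1) (hP2 : ∀ v, (P.neighborSet v).ncard ≤ 2)
    (hYY : ∀ a ∈ Y, ∀ b ∈ Y, ¬ P.Adj a b) (g m : ℕ) (hg : g = 32 * Fintype.card κ + 28)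
    (hm : 2 * g + 34 ≤ m) (hS : Sparse G m)
    (hsep : ∀ a ∈ Y, ∀ b ∈ Y, a ≠ b → ∀ p : G.Walk a b, g + 30 ≤ p.length) :
    Cov (P ⊔ ⨆ i, H i) (Fintype.card κ + 1) := by
  classical
  have := Fintype.ofFinite V
  have : Fintype (EE H) := Fintype.ofFinite (EE H)
  have : Fintype (II H) := Fintype.ofFinite (II H)
  obtain ⟨key, hk1, hk2⟩ := exists_key2 P Y hP1 hYY
  set Q := partner P Y with hQdef
  have hQ : ∀ v, (Q.neighborSet v).ncard ≤ 1 := partner_deg hP1 hP2
  -- walks along `Q`
  have hQw : ∀ v w, (v = w ∨ Q.Adj v w) → ∃ p : G.Walk v w, p.length ≤ 2 := by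
    rintro v w (rfl | ⟨_, _, _, h | ⟨y, _, h1, h2⟩⟩)
    · exact ⟨Walk.nil, by simp⟩
    · exact ⟨Walk.cons (hPG h) Walk.nil, by simp⟩
    · exact ⟨Walk.cons (hPG h1).symm (Walk.cons (hPG h2) Walk.nil), by simp⟩
  -- an edge in each class, avoiding `Y` if the class is short
  have hne : ∀ c : II H, ∃ e : EE H, cl e = c ∧
      (csize (H c.1.1) c.1.2 < g → aa e ∉ Y ∧ bb e ∉ Y) := by
    intro c
    by_cases hc : csize (H c.1.1) c.1.2 < g
    · have h3 := card_far (hdeg c.1.1) c.1.2 c.2.1 Y (csize (H c.1.1) c.1.2) le_rfl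
        (fun a ha b hb hab p => by
          have := hsep a ha b hb hab (p.mapLe (hHG c.1.1))
          rw [Walk.length_mapLe] at this
          omega)
      have h3' := csize_three c.2.1
      have h4 : (Y ∩ {w | (H c.1.1).Reachable c.1.2 w}).ncard ≤ 1 := by
        by_contra hlt
        push Not at hlt
        have : 2 * csize (H c.1.1) c.1.2 ≤
          (Y ∩ {w | (H c.1.1).Reachable c.1.2 w}).ncard * csize (H c.1.1) c.1.2 :=
          Nat.mul_le_mul_right _ hlt
        omega
      set YC : Finset V := (Set.toFinite (Y ∩ {w | (H c.1.1).Reachable c.1.2 w})).toFinset with hYC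
      have hYCc : YC.card ≤ 1 := by
        rw [hYC, ← Set.ncard_eq_toFinset_card]
        exact h4
      by_contra hcon
      push Not at hcon
      have h5 : univ.filter (fun e : EE H => cl e = c) ⊆
          YC.biUnion (fun z => univ.filter (fun e => inc e z ∧ e.1.1 = c.1.1)) := by
        intro e he
        have he2 := (mem_filter.1 he).2
        have he3 := ((cl_iff e c).1 he2).1
        obtain ⟨_, h6⟩ := hcon e he2
        have hmem : ∀ z, inc e z → z ∈ Y → z ∈ YC := by
          intro z hz hzY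
          rw [hYC, Set.Finite.mem_toFinset]
          exact ⟨hzY, (inc_cyc hz c he2).2.2.symm⟩
        by_cases ha : aa e ∈ Y
        · exact mem_biUnion.2 ⟨_, hmem _ (Or.inl rfl) ha, mem_filter.2 ⟨mem_univ _, Or.inl rfl, he3⟩⟩
        · exact mem_biUnion.2 ⟨_, hmem _ (Or.inr rfl) (h6 ha),
            mem_filter.2 ⟨mem_univ _, Or.inr rfl, he3⟩⟩
      have h6 := (card_le_card h5).trans (card_biUnion_le.trans
        (sum_le_sum fun z _ => star_le c.1.1 z))
      rw [class_card, sum_const, smul_eq_mul] at h6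
      omega
    · have h3 : 0 < (univ.filter (fun e : EE H => cl e = c)).card := by
        rw [class_card]
        exact csize_pos _ _
      obtain ⟨e, he⟩ := card_pos.1 h3
      exact ⟨e, (mem_filter.1 he).2, fun h => absurd h hc⟩
  choose e0 he0 he0Y using hne
  -- short classes
  let Sh : Finset (II H) := univ.filter (fun c => csize (H c.1.1) c.1.2 < g)
  have hSh : ∀ c, c ∈ Sh ↔ csize (H c.1.1) c.1.2 < g := fun c => by simp [Sh]
  -- distance of short classes
  have hfarS : ∀ c c', c ∈ Sh → c' ∈ Sh → c ≠ c' → ∀ x y, x ∈ UU c → y ∈ UU c' →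
      ∀ p : G.Walk x y, 34 ≤ p.length := by
    intro c c' hc hc' hne x y hx hy p
    have h1 := far hS hHG hdis hne hx hy p
    rw [card_UU, card_UU] at h1
    have h2 := (hSh c).1 hc
    have h3 := (hSh c').1 hc'
    omega
  -- the zones
  let ZS : {c : II H // c ∈ Sh} → Set V := fun c => (nbh Q (e0 c.1) : Set V)
  let ZY : Y → Set V := fun y => insert y.1 (P.neighborSet y.1)
  have hZS : ∀ c : {c : II H // c ∈ Sh}, ∀ w ∈ ZS c, ∃ x ∈ UU c.1, ∃ p : G.Walk x w, p.length ≤ 2 := by
    intro c w hw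
    obtain ⟨v, hv, hvw⟩ := (mem_nbh Q _ w).1 (mem_coe.1 hw)
    exact ⟨v, inc_UU hv c.1 (he0 c.1), hQw v w hvw⟩
  have hZY : ∀ y : Y, ∀ w ∈ ZY y, ∃ p : G.Walk y.1 w, p.length ≤ 1 := by
    intro y w hw
    rcases hw with rfl | hw
    · exact ⟨Walk.nil, by simp⟩
    · exact ⟨Walk.cons (hPG hw) Walk.nil, by simp⟩
  -- available edges
  let Zt : Set V := (⋃ c, ZS c) ∪ ⋃ y, ZY y
  let av : II H → Finset (EE H) := fun c =>
    univ.filter (fun e => cl e = c ∧ aa e ∉ Zt ∧ bb e ∉ Zt)
  have hav : ∀ c, c ∉ Sh → 16 * Fintype.card κ ≤ (av c).card := by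
    intro c hc
    have hcg : g ≤ csize (H c.1.1) c.1.2 := by
      have := (hSh c).not.1 hc
      omega
    have hcc := class_card c
    have k1 := zone_count (hdeg c.1.1) c.1.2 c.2.1 ZS 4 28 (by norm_num) (by omega)
      (fun c' => by
        show ((nbh Q (e0 c'.1) : Finset V) : Set V).ncard ≤ 4
        rw [Set.ncard_coe_finset]
        exact card_nbh Q hQ _)
      (fun c1 c2 h12 a ha b hb p => by
        obtain ⟨x, hx, p1, hp1⟩ := hZS c1 a ha
        obtain ⟨y, hy, p2, hp2⟩ := hZS c2 b hb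
        have h1 := hfarS c1.1 c2.1 c1.2 c2.2 (fun h => h12 (Subtype.ext h)) x y hx hy
          (p1.append ((p.mapLe (hHG c.1.1)).append p2.reverse))
        rw [Walk.length_append, Walk.length_append, Walk.length_reverse, Walk.length_mapLe] at h1
        omega)
    have k2 := zone_count (hdeg c.1.1) c.1.2 c.2.1 ZY 3 28 (by norm_num) (by omega)
      (fun y => by
        have h1 := Set.ncard_insert_le y.1 (P.neighborSet y.1)
        have h2 := hP2 y.1
        show (insert y.1 (P.neighborSet y.1)).ncard ≤ 3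
        omega)
      (fun y1 y2 h12 a ha b hb p => by
        obtain ⟨p1, hp1⟩ := hZY y1 a ha
        obtain ⟨p2, hp2⟩ := hZY y2 b hb
        have h1 := hsep y1.1 y1.2 y2.1 y2.2 (fun h => h12 (Subtype.ext h))
          (p1.append ((p.mapLe (hHG c.1.1)).append p2.reverse))
        rw [Walk.length_append, Walk.length_append, Walk.length_reverse, Walk.length_mapLe] at h1
        omega)
    set ZC : Finset V := (Set.toFinite (Zt ∩ {w | (H c.1.1).Reachable c.1.2 w})).toFinset with hZC
    have hZCc : ZC.card ≤ ((⋃ c, ZS c) ∩ {w | (H c.1.1).Reachable c.1.2 w}).ncard +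
        ((⋃ y, ZY y) ∩ {w | (H c.1.1).Reachable c.1.2 w}).ncard := by
      rw [hZC, ← Set.ncard_eq_toFinset_card]
      refine le_trans (Set.ncard_le_ncard ?_ (Set.toFinite _)) (Set.ncard_union_le _ _)
      rintro w ⟨hw | hw, hw2⟩
      · exact Or.inl ⟨hw, hw2⟩
      · exact Or.inr ⟨hw, hw2⟩
    have h3 : univ.filter (fun e : EE H => cl e = c) ⊆ av c ∪
        ZC.biUnion (fun z => univ.filter (fun e => inc e z ∧ e.1.1 = c.1.1)) := by
      intro e he
      have he2 := (mem_filter.1 he).2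
      have he3 := ((cl_iff e c).1 he2).1
      have hmem : ∀ z, inc e z → z ∈ Zt → z ∈ ZC := by
        intro z hz hzY
        rw [hZC, Set.Finite.mem_toFinset]
        exact ⟨hzY, (inc_cyc hz c he2).2.2.symm⟩
      rw [mem_union]
      by_cases ha : aa e ∈ Zt
      · right
        exact mem_biUnion.2 ⟨_, hmem _ (Or.inl rfl) ha,
          mem_filter.2 ⟨mem_univ _, Or.inl rfl, he3⟩⟩
      · by_cases hb : bb e ∈ Zt
        · right
          exact mem_biUnion.2 ⟨_, hmem _ (Or.inr rfl) hb,
            mem_filter.2 ⟨mem_univ _, Or.inr rfl, he3⟩⟩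
        · left
          exact mem_filter.2 ⟨mem_univ _, he2, ha, hb⟩
    have h4 := (card_le_card h3).trans (card_union_le _ _)
    have h5 : (ZC.biUnion (fun z => univ.filter
        (fun e : EE H => inc e z ∧ e.1.1 = c.1.1))).card ≤ ZC.card * 2 := by
      refine card_biUnion_le.trans ((sum_le_sum fun z _ => star_le c.1.1 z).trans ?_)
      rw [sum_const, smul_eq_mul]
    rw [hcc] at h4
    omega
  -- the transversal for the long classes
  obtain ⟨t, ht1, ht2⟩ : ∃ t : {c : II H // c ∉ Sh} → EE H, (∀ c, t c ∈ av c.1) ∧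
      ∀ c c', c ≠ c' → ∀ v w, inc (t c) v → inc (t c') w → ¬ (v = w ∨ Q.Adj v w) := by
    rcases Nat.eq_zero_or_pos (Fintype.card κ) with h0 | h0
    · have hem : IsEmpty κ := Fintype.card_eq_zero_iff.1 h0
      have : IsEmpty {c : II H // c ∉ Sh} := ⟨fun c => hem.elim c.1.1.1⟩
      exact ⟨fun c => isEmptyElim c, fun c => isEmptyElim c, fun c => isEmptyElim c⟩
    · set N := 16 * Fintype.card κ with hN
      have hLpos : 0 < N := by omega
      have hem : ∀ c : {c : II H // c ∉ Sh}, ∃ f : Fin N → EE H, Function.Injective f ∧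
          ∀ i, f i ∈ av c.1 := by
        intro c
        have h3 : Fintype.card (Fin N) ≤ Fintype.card {e : EE H // e ∈ av c.1} := by
          rw [Fintype.card_fin, Fintype.card_coe]
          exact hav c.1 c.2
        obtain ⟨f⟩ := Function.Embedding.nonempty_of_card_le h3
        exact ⟨fun i => (f i).1, fun i j h => f.injective (Subtype.ext h), fun i => (f i).2⟩
      choose em hem1 hem2 using hem
      have : Nonempty (Fin N) := ⟨⟨0, hLpos⟩⟩
      obtain ⟨f, hf⟩ := Pool.Agent.H931R2.Haxell.finite (I := {c : II H // c ∉ Sh}) (S := Fin N)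
        (adj := fun x y => ∃ v w, inc (em x.1 x.2) v ∧ inc (em y.1 y.2) w ∧ (v = w ∨ Q.Adj v w))
        (by
          rintro x y ⟨v, w, hv, hw, hvw⟩
          exact ⟨w, v, hw, hv, hvw.imp Eq.symm SimpleGraph.Adj.symm⟩) (by
          intro K hK Z' hZ'
          by_contra hcon
          push Not at hcon
          have hsub : K ×ˢ (univ : Finset (Fin N)) ⊆ Z'.biUnion (fun z =>
              univ.filter (fun x : {c : II H // c ∉ Sh} × Fin N => ∃ v, inc (em x.1 x.2) v ∧
                v ∈ nbh Q (em z.1 z.2))) := by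
            intro x hx
            obtain ⟨z, hz, v, w, hv, hw, hvw⟩ := hcon x.1 (mem_product.1 hx).1 x.2
            refine mem_biUnion.2 ⟨z, hz, mem_filter.2 ⟨mem_univ _, v, hv, ?_⟩⟩
            exact (mem_nbh Q _ _).2 ⟨w, hw, hvw.imp Eq.symm SimpleGraph.Adj.symm⟩
          have h3 := (card_le_card hsub).trans card_biUnion_le
          have h4 : ∀ z ∈ Z', (univ.filter (fun x : {c : II H // c ∉ Sh} × Fin N =>
              ∃ v, inc (em x.1 x.2) v ∧ v ∈ nbh Q (em z.1 z.2))).card ≤ 8 * Fintype.card κ := by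
            intro z _
            refine le_trans ?_ (cf_card Q hQ (em z.1 z.2))
            refine card_le_card_of_injOn (fun x => em x.1 x.2) ?_ ?_
            · intro x hx
              simp only [coe_filter, mem_univ, true_and, Set.mem_ofPred_eq] at hx ⊢
              exact hx
            · rintro ⟨c, i⟩ _ ⟨c', i'⟩ _ h
              have h5 : em c i = em c' i' := h
              have h6 : c = c' := by
                apply Subtype.ext
                rw [← (mem_filter.1 (hem2 c i)).2.1, ← (mem_filter.1 (hem2 c' i')).2.1, h5]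
              subst h6
              rw [hem1 c h5]
          have h5 := h3.trans (sum_le_sum h4)
          rw [sum_const, smul_eq_mul, card_product, card_univ, Fintype.card_fin] at h5
          have hK1 : 1 ≤ K.card := card_pos.2 hK
          have h6 : Z'.card * (8 * Fintype.card κ) ≤
              (2 * (K.card - 1)) * (8 * Fintype.card κ) := Nat.mul_le_mul_right _ hZ'
          have h7 : (2 * (K.card - 1)) * (8 * Fintype.card κ) = (K.card - 1) * N := by
            rw [hN]; ring
          have h8 : K.card * N = (K.card - 1) * N + N := by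
            obtain ⟨t, ht⟩ : ∃ t, K.card = t + 1 := ⟨K.card - 1, by omega⟩
            rw [ht, Nat.add_sub_cancel]
            ring
          omega) univ
      refine ⟨fun c => em c (f c), fun c => hem2 c _, fun c c' h v w hv hw hvw => ?_⟩
      exact hf c (mem_univ _) c' (mem_univ _) h ⟨v, w, hv, hw, hvw⟩
  let s : II H → EE H := fun c => if h : c ∈ Sh then e0 c else t ⟨c, h⟩
  have hs1 : ∀ c (_ : c ∈ Sh), s c = e0 c := fun c h => dif_pos h
  have hs2 : ∀ c (h : c ∉ Sh), s c = t ⟨c, h⟩ := fun c h => dif_neg h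
  have hs : ∀ c, cl (s c) = c := by
    intro c
    by_cases h : c ∈ Sh
    · rw [hs1 c h]; exact he0 c
    · rw [hs2 c h]; exact (mem_filter.1 (ht1 ⟨c, h⟩)).2.1
  have hlong : ∀ c (_ : c ∉ Sh) w, inc (s c) w → w ∉ Zt := by
    intro c h w hw
    rw [hs2 c h] at hw
    have h3 := (mem_filter.1 (ht1 ⟨c, h⟩)).2.2
    rcases hw with rfl | rfl
    · exact h3.1
    · exact h3.2
  have hsY : ∀ c w, inc (s c) w → w ∉ Y := by
    intro c w hw hwY
    by_cases h : c ∈ Sh
    · have h3 := he0Y c ((hSh c).1 h)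
      rw [hs1 c h] at hw
      rcases hw with rfl | rfl
      · exact h3.1 hwY
      · exact h3.2 hwY
    · refine hlong c h w hw (Or.inr (Set.mem_iUnion.2 ⟨⟨w, hwY⟩, ?_⟩))
      exact Or.inl rfl
  have hZmem : ∀ c (hc : c ∈ Sh), ∀ v w, inc (e0 c) v → (v = w ∨ Q.Adj v w) → w ∈ Zt := by
    intro c hc v w hv hvw
    exact Or.inl (Set.mem_iUnion.2 ⟨⟨c, hc⟩, mem_coe.2 ((mem_nbh Q _ w).2 ⟨v, hv, hvw⟩)⟩)
  have hcf : ∀ c c', c ≠ c' → ∀ v w, inc (s c) v → inc (s c') w → ¬ (v = w ∨ Q.Adj v w) := by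
    intro c c' hcc v w hv hw hvw
    by_cases h : c ∈ Sh
    · have hv0 := hv
      rw [hs1 c h] at hv0
      have hwZ := hZmem c h v w hv0 hvw
      by_cases h' : c' ∈ Sh
      · obtain ⟨p, hp⟩ := hQw v w hvw
        have h3 := hfarS c c' h h' hcc v w (inc_UU hv c (hs c)) (inc_UU hw c' (hs c')) p
        omega
      · exact hlong c' h' w hw hwZ
    · by_cases h' : c' ∈ Sh
      · have hw0 := hw
        rw [hs1 c' h'] at hw0
        exact hlong c h v hv (hZmem c' h' w v hw0 (hvw.imp Eq.symm SimpleGraph.Adj.symm))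
      · rw [hs2 c h] at hv
        rw [hs2 c' h'] at hw
        exact ht2 ⟨c, h⟩ ⟨c', h'⟩ (fun e => hcc (congrArg Subtype.val e)) v w hv hw hvw
  refine cov_of_sel2 H P Y hdeg hP1 hP2 hYY key hk1 hk2 s
    (fun c => ⟨hs c, hsY c _ (Or.inl rfl), hsY c _ (Or.inr rfl)⟩) ?_ ?_
  · rintro c c' hcc ⟨_, h3⟩
    rcases h3 with ⟨v, hv, hw⟩ | ⟨v, w, hvw, hv, hw⟩
    · exact hcf c c' hcc v v hv hw (Or.inl rfl)
    · exact hcf c c' hcc v w hv.inc hw.inc (Or.inr hvw)
  · rintro c y ⟨hya, hyb⟩
    by_cases h : c ∈ Sh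
    · have h1 : (UU c).card + 1 ≤ m := by
        rw [card_UU]
        have := (hSh c).1 h
        omega
      exact no_cherry hS hHG hPG hPH h1 (inc_UU (Or.inl rfl) c (hs c))
        (inc_UU (Or.inr rfl) c (hs c)) (ends_ne _) hya hyb
    · have hyY : y ∈ Y := by
        by_contra hy
        exact ends_ne (s c) ((Set.ncard_le_one (Set.toFinite _)).1 (hP1 y hy) _ hya _ hyb)
      exact hlong c h _ (Or.inl rfl) (Or.inr (Set.mem_iUnion.2 ⟨⟨y, hyY⟩, Or.inr hya⟩))

end Pool.Agent.Run7.H778.LS
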