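import Pool.Agent.Run7.h778.RL.Det
import Pool.Agent.W111.LAR.Sep

set_option autoImplicit false

/-!
Graphs in which every small set of vertices spans at most as many edges as vertices: the short
cycles are far from each other.
-/

namespace Pool.Agent.Run7.H778.LS

open Finset SimpleGraph H931R3.LA Pool.Agent.W111.LAR Pool.Agent.Run7.H778.RL

variable {V : Type}

/-- The edges with both ends in `U`. -/
def eIn (G : SimpleGraph V) (U : Finset V) : Set (Sym2 V) :=
  {e | e ∈ G.edgeSet ∧ ∀ v ∈ e, v ∈ U}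

/-- Every set of at most `m` vertices spans at most as many edges as it has vertices. -/
def Sparse (G : SimpleGraph V) (m : ℕ) : Prop :=
  ∀ U : Finset V, U.card ≤ m → (eIn G U).ncard ≤ U.card

theorem eIn_mono (G : SimpleGraph V) {U U' : Finset V} (h : U ⊆ U') : eIn G U ⊆ eIn G U' :=
  fun _ he => ⟨he.1, fun v hv => h (he.2 v hv)⟩

theorem mem_eIn {G : SimpleGraph V} {U : Finset V} {x y : V} :
    s(x, y) ∈ eIn G U ↔ G.Adj x y ∧ x ∈ U ∧ y ∈ U := by
  constructor
  · intro h
    exact ⟨h.1, h.2 x (Sym2.mem_mk_left x y), h.2 y (Sym2.mem_mk_right x y)⟩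
  · rintro ⟨h1, h2, h3⟩
    refine ⟨h1, fun v hv => ?_⟩
    rcases Sym2.mem_iff.1 hv with rfl | rfl
    · exact h2
    · exact h3

theorem grow [Finite V] [DecidableEq V] (G : SimpleGraph V) {U : Finset V} {x y : V} (hx : x ∈ U)
    (hy : y ∉ U) (h : G.Adj x y) : (eIn G U).ncard + 1 ≤ (eIn G (insert y U)).ncard := by
  have h1 : insert s(x, y) (eIn G U) ⊆ eIn G (insert y U) := by
    intro e he
    rcases he with rfl | he
    · exact mem_eIn.2 ⟨h, mem_insert_of_mem hx, mem_insert_self _ _⟩
    · exact eIn_mono G (subset_insert y U) he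
  have h2 := Set.ncard_le_ncard h1 (Set.toFinite _)
  rwa [Set.ncard_insert_of_notMem (fun he => hy (mem_eIn.1 he).2.2) (Set.toFinite _)] at h2

theorem join [Finite V] [DecidableEq V] (G : SimpleGraph V) {U U' : Finset V}
    (hd : Disjoint U U') {x y : V} (hx : x ∈ U) (hy : y ∈ U') (h : G.Adj x y) :
    (eIn G U).ncard + (eIn G U').ncard + 1 ≤ (eIn G (U ∪ U')).ncard := by
  have hd' := Finset.disjoint_left.1 hd
  have h0 : Disjoint (eIn G U) (eIn G U') := by
    rw [Set.disjoint_left]
    intro e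
    induction e using Sym2.ind with
    | _ a b =>
      intro h1 h2
      exact hd' (mem_eIn.1 h1).2.1 (mem_eIn.1 h2).2.1
  have h1 : insert s(x, y) (eIn G U ∪ eIn G U') ⊆ eIn G (U ∪ U') := by
    intro e he
    rcases he with rfl | he | he
    · exact mem_eIn.2 ⟨h, mem_union_left _ hx, mem_union_right _ hy⟩
    · exact eIn_mono G subset_union_left he
    · exact eIn_mono G subset_union_right he
  have h2 := Set.ncard_le_ncard h1 (Set.toFinite _)
  rw [Set.ncard_insert_of_notMem, Set.ncard_union_eq h0 (Set.toFinite _) (Set.toFinite _)] at h2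
  · exact h2
  · rintro (he | he)
    · exact hd' (mem_eIn.1 he).2.2 hy
    · exact hd' hx (mem_eIn.1 he).2.1

/-- Two disjoint sets spanning at least as many edges as vertices, joined by a walk. -/
theorem join_walk [Finite V] [DecidableEq V] (G : SimpleGraph V) (U' : Finset V)
    (hU' : U'.card ≤ (eIn G U').ncard) {x y : V} (p : G.Walk x y) (hy : y ∈ U') :
    ∀ U : Finset V, x ∈ U → U.card ≤ (eIn G U).ncard → Disjoint U U' →
      ∃ W : Finset V, W.card ≤ U.card + U'.card + p.length ∧ W.card + 1 ≤ (eIn G W).ncard := by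
  induction p with
  | nil =>
    intro U hx _ hd
    exact absurd hy (Finset.disjoint_left.1 hd hx)
  | @cons x x1 y h p ih =>
    intro U hx hU hd
    by_cases h1 : x1 ∈ U'
    · refine ⟨U ∪ U', ?_, ?_⟩
      · have := card_union_le U U'
        omega
      · have h2 := join G hd hx h1 h
        rw [card_union_of_disjoint hd]
        omega
    · by_cases h2 : x1 ∈ U
      · obtain ⟨W, hW1, hW2⟩ := ih hy U h2 hU hd
        refine ⟨W, ?_, hW2⟩
        rw [Walk.length_cons]
        omega
      · obtain ⟨W, hW1, hW2⟩ := ih hy (insert x1 U) (mem_insert_self _ _) (by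
          rw [card_insert_of_notMem h2]
          have := grow G hx h2 h
          omega) (by
          rw [Finset.disjoint_insert_left]
          exact ⟨h1, hd⟩)
        refine ⟨W, ?_, hW2⟩
        rw [card_insert_of_notMem h2] at hW1
        rw [Walk.length_cons]
        omega

section

variable {κ : Type} {H : κ → SimpleGraph V}

/-- The vertices of a cyclic component. -/
noncomputable def UU [Finite V] (c : II H) : Finset V :=
  (Set.toFinite {w | (H c.1.1).Reachable c.1.2 w}).toFinset

theorem mem_UU [Finite V] (c : II H) (w : V) : w ∈ UU c ↔ (H c.1.1).Reachable c.1.2 w := by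
  rw [UU, Set.Finite.mem_toFinset]
  exact Iff.rfl

theorem card_UU [Finite V] (c : II H) : (UU c).card = csize (H c.1.1) c.1.2 := by
  rw [UU, ← Set.ncard_eq_toFinset_card]
  rfl

/-- The edges of a cyclic component. -/
def EC (c : II H) : Set (Sym2 V) := {d | ∃ e : EE H, cl e = c ∧ e.1.2 = d}

theorem ncard_EC [Finite V] [Finite κ] (c : II H) : (EC c).ncard = (UU c).card := by
  classical
  have := Fintype.ofFinite V
  have := Fintype.ofFinite κ
  have : Fintype (EE H) := Fintype.ofFinite (EE H)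
  rw [card_UU, ← class_card c]
  have h1 : EC c = (((univ.filter (fun e : EE H => cl e = c)).image (fun e => e.1.2) :
      Finset (Sym2 V)) : Set (Sym2 V)) := by
    ext d
    rw [mem_coe, mem_image]
    constructor
    · rintro ⟨e, he, hd⟩
      exact ⟨e, mem_filter.2 ⟨mem_univ _, he⟩, hd⟩
    · rintro ⟨e, he, hd⟩
      exact ⟨e, (mem_filter.1 he).2, hd⟩
  rw [h1, Set.ncard_coe_finset, card_image_of_injOn]
  intro e he e' he' h
  have q1 := ((cl_iff e c).1 (mem_filter.1 (mem_coe.1 he)).2).1
  have q2 := ((cl_iff e' c).1 (mem_filter.1 (mem_coe.1 he')).2).1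
  exact Subtype.ext (Prod.ext (q1.trans q2.symm) h)

theorem inc_UU [Finite V] {e : EE H} {v : V} (h : inc e v) (c : II H) (hc : cl e = c) :
    v ∈ UU c := (mem_UU c v).2 (inc_cyc h c hc).2.2.symm

theorem EC_sub [Finite V] {G : SimpleGraph V} (hHG : ∀ i, H i ≤ G) (c : II H) :
    EC c ⊆ eIn G (UU c) := by
  rintro d ⟨e, he, rfl⟩
  rw [← mk_ends e]
  exact mem_eIn.2 ⟨hHG _ (adj_ends e), inc_UU (Or.inl rfl) c he, inc_UU (Or.inr rfl) c he⟩

theorem EC_disj (hdis : ∀ i j u v, (H i).Adj u v → (H j).Adj u v → i = j) {c c' : II H}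
    (h : c ≠ c') : Disjoint (EC c) (EC c') := by
  rw [Set.disjoint_left]
  rintro d ⟨e, he, rfl⟩ ⟨e', he', hd⟩
  apply h
  have h1 : e.1.1 = e'.1.1 := by
    have h2 := adj_ends e
    have h3 := adj_ends e'
    have h4 : s(aa e', bb e') = s(aa e, bb e) := by rw [mk_ends, mk_ends, hd]
    rcases Sym2.eq_iff.1 h4 with ⟨h5, h6⟩ | ⟨h5, h6⟩
    · rw [h5, h6] at h3
      exact hdis _ _ _ _ h2 h3
    · rw [h5, h6] at h3
      exact hdis _ _ _ _ h2 h3.symm
  have h2 : e = e' := Subtype.ext (Prod.ext h1 hd.symm)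
  rw [← he, ← he', h2]

theorem csize_three [Finite V] {A : SimpleGraph V} {v : V} (h : Cyc A v) : 3 ≤ csize A v := by
  classical
  have h1 := h v (Reachable.refl v)
  have h2 : insert v (A.neighborSet v) ⊆ {w | A.Reachable v w} := by
    intro w hw
    rcases hw with rfl | hw
    · exact Reachable.refl _
    · exact SimpleGraph.Adj.reachable hw
  have h3 := Set.ncard_le_ncard h2 (Set.toFinite _)
  rw [Set.ncard_insert_of_notMem (by simp) (Set.toFinite _), h1] at h3
  exact h3

/-- Different short cyclic components are far from each other. -/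
theorem far [Finite V] [Finite κ] {G : SimpleGraph V} {m : ℕ} (hS : Sparse G m)
    (hHG : ∀ i, H i ≤ G) (hdis : ∀ i j u v, (H i).Adj u v → (H j).Adj u v → i = j)
    {c c' : II H} (hne : c ≠ c') {x y : V} (hx : x ∈ UU c) (hy : y ∈ UU c') (p : G.Walk x y) :
    m < (UU c).card + (UU c').card + p.length := by
  classical
  by_contra hcon
  push Not at hcon
  by_cases hd : Disjoint (UU c) (UU c')
  · obtain ⟨W, h1, h2⟩ := join_walk G (UU c') (by
      rw [← ncard_EC c']
      exact Set.ncard_le_ncard (EC_sub hHG c') (Set.toFinite _)) p hy (UU c) hx (by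
      rw [← ncard_EC c]
      exact Set.ncard_le_ncard (EC_sub hHG c) (Set.toFinite _)) hd
    have h3 := hS W (by omega)
    omega
  · have h1 : EC c ∪ EC c' ⊆ eIn G (UU c ∪ UU c') := by
      intro e he
      rcases he with he | he
      · exact eIn_mono G subset_union_left (EC_sub hHG c he)
      · exact eIn_mono G subset_union_right (EC_sub hHG c' he)
    have h2 := Set.ncard_le_ncard h1 (Set.toFinite _)
    rw [Set.ncard_union_eq (EC_disj hdis hne) (Set.toFinite _) (Set.toFinite _), ncard_EC,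
      ncard_EC] at h2
    have h3 := card_union_add_card_inter (UU c) (UU c')
    have h4 : 1 ≤ (UU c ∩ UU c').card := by
      rw [Nat.one_le_iff_ne_zero, Ne, card_eq_zero]
      exact fun h => hd (disjoint_iff_inter_eq_empty.2 h)
    have h5 := hS (UU c ∪ UU c') (by omega)
    omega

/-- A short cyclic component has no edge in a triangle with two edges of `P`. -/
theorem no_cherry [Finite V] [Finite κ] {G P : SimpleGraph V} {m : ℕ} (hS : Sparse G m)
    (hHG : ∀ i, H i ≤ G) (hPG : P ≤ G) (hPH : ∀ i u v, P.Adj u v → ¬ (H i).Adj u v)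
    {c : II H} (hc : (UU c).card + 1 ≤ m) {y a b : V} (ha : a ∈ UU c) (hb : b ∈ UU c)
    (hab : a ≠ b) (hya : P.Adj y a) (hyb : P.Adj y b) : False := by
  classical
  have hnot : ∀ d, P.Adj y d → s(y, d) ∉ EC c := by
    rintro d hd ⟨e, he, h1⟩
    rw [← mk_ends e] at h1
    have h2 := adj_ends e
    rcases Sym2.eq_iff.1 h1 with ⟨h3, h4⟩ | ⟨h3, h4⟩
    · rw [h3, h4] at h2
      exact hPH _ _ _ hd h2
    · rw [h3, h4] at h2
      exact hPH _ _ _ hd h2.symm
  have h1 : insert s(y, a) (insert s(y, b) (EC c)) ⊆ eIn G (insert y (UU c)) := by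
    intro e he
    rcases he with rfl | rfl | he
    · exact mem_eIn.2 ⟨hPG hya, mem_insert_self _ _, mem_insert_of_mem ha⟩
    · exact mem_eIn.2 ⟨hPG hyb, mem_insert_self _ _, mem_insert_of_mem hb⟩
    · exact eIn_mono G (subset_insert _ _) (EC_sub hHG c he)
  have h2 := Set.ncard_le_ncard h1 (Set.toFinite _)
  rw [Set.ncard_insert_of_notMem _ (Set.toFinite _),
    Set.ncard_insert_of_notMem (hnot b hyb) (Set.toFinite _), ncard_EC] at h2
  · have h3 := card_insert_le y (UU c)
    have h4 := hS (insert y (UU c)) (by omega)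
    omega
  · rintro (h3 | h3)
    · exact hab (Sym2.congr_right.1 h3)
    · exact hnot a hya h3

end

/-- Zones far from each other on a cyclic component. -/
theorem zone_count {I : Type} [Finite V] [Finite I] {A : SimpleGraph V}
    (hdeg : ∀ v, (A.neighborSet v).ncard ≤ 2) (x : V) (hx : Cyc A x) (Z : I → Set V) (q t : ℕ)
    (ht0 : 1 ≤ t) (ht : t ≤ csize A x) (hq : ∀ i, (Z i).ncard ≤ q)
    (hfar : ∀ i j, i ≠ j → ∀ a ∈ Z i, ∀ b ∈ Z j, ∀ p : A.Walk a b, t ≤ p.length) :
    ((⋃ i, Z i) ∩ {w | A.Reachable x w}).ncard * t ≤ q * csize A x := by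
  classical
  have := Fintype.ofFinite I
  have := Fintype.ofFinite V
  let J : Finset I := univ.filter (fun i => ∃ w ∈ Z i, A.Reachable x w)
  have hJ : ∀ i, i ∈ J ↔ ∃ w ∈ Z i, A.Reachable x w := fun i => by simp [J]
  have hw : ∀ i, ∃ w, i ∈ J → w ∈ Z i ∧ A.Reachable x w := by
    intro i
    by_cases hi : i ∈ J
    · obtain ⟨w, h1, h2⟩ := (hJ i).1 hi
      exact ⟨w, fun _ => ⟨h1, h2⟩⟩
    · exact ⟨x, fun h => absurd h hi⟩
  choose w hw using hw
  have hinj : Set.InjOn w J := by
    intro i hi j hj hij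
    by_contra hne
    have h1 := hfar i j hne (w i) (hw i hi).1 (w j) (hw j hj).1 ((Walk.nil : A.Walk (w i) (w i)).copy rfl hij)
    rw [Walk.length_copy, Walk.length_nil] at h1
    omega
  have h1 := card_far hdeg x hx ((J.image w : Finset V) : Set V) t ht (by
    intro a ha b hb hab p
    obtain ⟨i, hi, rfl⟩ := mem_image.1 (mem_coe.1 ha)
    obtain ⟨j, hj, rfl⟩ := mem_image.1 (mem_coe.1 hb)
    exact hfar i j (fun h => hab (by rw [h])) _ (hw i hi).1 _ (hw j hj).1 p)
  have h2 : ((J.image w : Finset V) : Set V) ∩ {w | A.Reachable x w} =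
      ((J.image w : Finset V) : Set V) := by
    rw [Set.inter_eq_left]
    intro a ha
    obtain ⟨i, hi, rfl⟩ := mem_image.1 (mem_coe.1 ha)
    exact (hw i hi).2
  rw [h2, Set.ncard_coe_finset, card_image_of_injOn hinj] at h1
  have h3 : (⋃ i, Z i) ∩ {w | A.Reachable x w} ⊆
      ((J.biUnion (fun i => (Set.toFinite (Z i)).toFinset) : Finset V) : Set V) := by
    rintro v ⟨hv, hv2⟩
    obtain ⟨i, hi⟩ := Set.mem_iUnion.1 hv
    rw [mem_coe, mem_biUnion]
    exact ⟨i, (hJ i).2 ⟨v, hi, hv2⟩, (Set.Finite.mem_toFinset _).2 hi⟩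
  have h4 := Set.ncard_le_ncard h3 (Set.toFinite _)
  rw [Set.ncard_coe_finset] at h4
  have h5 : (J.biUnion (fun i => (Set.toFinite (Z i)).toFinset)).card ≤ J.card * q := by
    refine card_biUnion_le.trans ?_
    rw [← smul_eq_mul, ← sum_const]
    refine sum_le_sum fun i _ => ?_
    rw [← Set.ncard_eq_toFinset_card]
    exact hq i
  calc _ ≤ (J.card * q) * t := Nat.mul_le_mul_right _ (h4.trans h5)
    _ = q * (J.card * t) := by ring
    _ ≤ q * csize A x := Nat.mul_le_mul_left _ h1

end Pool.Agent.Run7.H778.LS
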